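import Pool.Agent.TH49.Spl.Med

set_option autoImplicit false

/-! The second moment of the value of a scheme over all orderings of a list. -/

namespace Pool.Agent.TH49.Spl

open Pool.Agent.H581R2.Splay

/-- the variances, in the two states -/
noncomputable def Vv (b0 : Bool) (a b : ℝ) : ℝ :=
  (if b0 then (a + 1) * a * b * (b - 1) else a ^ 2 * b ^ 2) / ((a + b) ^ 2 * (a + b - 1))

theorem Ev_rec' (b0 : Bool) (a b : ℕ) :
    (a : ℝ) * (Ev true ((a : ℝ) - 1) b - Ev b0 a b) +
      b * ((if b0 then 1 else 0) + Ev false a ((b : ℝ) - 1) - Ev b0 a b) = 0 := by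
  have := Ev_rec b0 a b ((a : ℝ) - 1) ((b : ℝ) - 1) (fun _ => rfl) (fun _ => rfl)
  linarith

theorem Vv_rec (b0 : Bool) (a b : ℕ) :
    (a : ℝ) * ((Ev true ((a : ℝ) - 1) b - Ev b0 a b) ^ 2 + Vv true ((a : ℝ) - 1) b) +
      b * (((if b0 then 1 else 0) + Ev false a ((b : ℝ) - 1) - Ev b0 a b) ^ 2 +
        Vv false a ((b : ℝ) - 1)) = (a + b) * Vv b0 a b := by
  by_cases h : 3 ≤ a + b
  · have h' : (3 : ℝ) ≤ a + b := by exact_mod_cast h
    have n0 : (a : ℝ) + b ≠ 0 := by
      have : (0 : ℝ) < a + b := by linarith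
      exact this.ne'
    have n1 : (a : ℝ) + b - 1 ≠ 0 := by
      have : (0 : ℝ) < (a : ℝ) + b - 1 := by linarith
      exact this.ne'
    have n2 : (a : ℝ) + b - 1 - 1 ≠ 0 := by
      have : (0 : ℝ) < (a : ℝ) + b - 1 - 1 := by linarith
      exact this.ne'
    have e1 : (a : ℝ) - 1 + b = a + b - 1 := by ring
    have e2 : (a : ℝ) + (b - 1) = a + b - 1 := by ring
    cases b0
    · simp only [Ev, Vv, Bool.false_eq_true, if_false, if_true, e1, e2]
      field_simp
      ring
    · simp only [Ev, Vv, Bool.false_eq_true, if_false, if_true, e1, e2]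
      field_simp
      ring
  · have ha : a ≤ 2 := by omega
    have hb : b ≤ 2 := by omega
    interval_cases a <;> interval_cases b <;> first | omega | (cases b0 <;> norm_num [Ev, Vv])

/-- the mean of the value -/
noncomputable def muC (c : ℕ → ℕ → ℕ) : AS → ℕ → ℕ → ℝ
  | AS.leaf, _, _ => 0
  | AS.node m b _ A C, l, r => Ev b (c l m) (c m r) + muC c A l m + muC c C m r

/-- the variance of the value -/
noncomputable def nuC (c : ℕ → ℕ → ℕ) : AS → ℕ → ℕ → ℝ
  | AS.leaf, _, _ => 0
  | AS.node m b _ A C, l, r => Vv b (c l m) (c m r) + nuC c A l m + nuC c C m r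

/-- the flags after a request -/
def upd (x : ℕ) : AS → ℕ → ℕ → AS
  | AS.leaf, _, _ => AS.leaf
  | AS.node m b p A C, l, r =>
      AS.node m (if l ≤ x ∧ x < m then true else if m ≤ x ∧ x < r then false else b) p
        (upd x A l m) (upd x C m r)

/-- the number of changes completed by a request -/
def jmp (x : ℕ) : AS → ℕ → ℕ → ℕ
  | AS.leaf, _, _ => 0
  | AS.node m b _ A C, l, r =>
      (if l ≤ x ∧ x < m then 0 else if m ≤ x ∧ x < r then (if b then 1 else 0) else 0) +
        jmp x A l m + jmp x C m r

theorem val_cons (x : ℕ) (Y : List ℕ) : ∀ (s : AS) (l r : ℕ),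
    val s l r (x :: Y) = jmp x s l r + val (upd x s l r) l r Y := by
  intro s
  induction s with
  | leaf => intro l r; simp [val, jmp, upd]
  | node m b p A C ihA ihC =>
    intro l r
    simp only [val, jmp, upd, cnt, ihA, ihC]
    split_ifs <;> omega

theorem upd_ok (x : ℕ) : ∀ (s : AS) (l r : ℕ), ok s l r → ok (upd x s l r) l r := by
  intro s
  induction s with
  | leaf => intro l r h; exact h
  | node m b p A C ihA ihC =>
    intro l r h
    obtain ⟨h1, h2, h3, h4⟩ := h
    exact ⟨h1, h2, ihA l m h3, ihC m r h4⟩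

section

variable {M : ℕ} (x : Fin M → ℕ) (c : ℕ → ℕ → ℕ) (cp : Fin M → ℕ → ℕ → ℕ)

/-- the change of the conditional mean -/
noncomputable def Dp (p : Fin M) (s : AS) (l r : ℕ) : ℝ :=
  jmp (x p) s l r + muC (cp p) (upd (x p) s l r) l r - muC c s l r

/-- the change of the conditional variance -/
noncomputable def Np (p : Fin M) (s : AS) (l r : ℕ) : ℝ :=
  nuC (cp p) (upd (x p) s l r) l r - nuC c s l r

variable (hc : ∀ p l r, c l r = (if l ≤ x p ∧ x p < r then 1 else 0) + cp p l r)
variable (hs : ∀ l r, c l r = ∑ p, if l ≤ x p ∧ x p < r then 1 else 0)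

include hc in
theorem Dp_out (p : Fin M) : ∀ (s : AS) (l r : ℕ), ok s l r → ¬ (l ≤ x p ∧ x p < r) →
    Dp x c cp p s l r = 0 ∧ Np x c cp p s l r = 0 := by
  intro s
  induction s with
  | leaf => intro l r _ _; simp [Dp, Np, jmp, muC, nuC, upd]
  | node m b p0 A C ihA ihC =>
    intro l r hok hout
    obtain ⟨h1, h2, h3, h4⟩ := hok
    obtain ⟨a1, a2⟩ := ihA l m h3 (by omega)
    obtain ⟨c1, c2⟩ := ihC m r h4 (by omega)
    have e1 := hc p l m
    have e2 := hc p m r
    rw [if_neg (by omega), zero_add] at e1 e2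
    simp only [Dp, Np, jmp, muC, nuC, upd] at a1 a2 c1 c2 ⊢
    rw [if_neg (by omega), if_neg (by omega), if_neg (by omega), if_neg (by omega), e1, e2]
    push_cast
    constructor <;> linarith

include hc hs in
theorem Dp_sum : ∀ (s : AS) (l r : ℕ), ok s l r →
    (∑ p, Dp x c cp p s l r) = 0 ∧ (∑ p, ((Dp x c cp p s l r) ^ 2 + Np x c cp p s l r)) = 0 := by
  intro s
  induction s with
  | leaf => intro l r _; simp [Dp, Np, jmp, muC, nuC, upd]
  | node m b p0 A C ihA ihC =>
    intro l r hok
    obtain ⟨h1, h2, h3, h4⟩ := hok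
    obtain ⟨a1, a2⟩ := ihA l m h3
    obtain ⟨c1, c2⟩ := ihC m r h4
    -- the contribution of the split itself
    set dL : ℝ := Ev true ((c l m : ℝ) - 1) (c m r) - Ev b (c l m) (c m r) with hdL
    set dR : ℝ := (if b then 1 else 0) + Ev false (c l m) ((c m r : ℝ) - 1) -
      Ev b (c l m) (c m r) with hdR
    set nL : ℝ := Vv true ((c l m : ℝ) - 1) (c m r) - Vv b (c l m) (c m r) with hnL
    set nR : ℝ := Vv false (c l m) ((c m r : ℝ) - 1) - Vv b (c l m) (c m r) with hnR
    have hD : ∀ p, Dp x c cp p (AS.node m b p0 A C) l r =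
        (if l ≤ x p ∧ x p < m then dL else if m ≤ x p ∧ x p < r then dR else 0) +
          Dp x c cp p A l m + Dp x c cp p C m r := by
      intro p
      have e1 := hc p l m
      have e2 := hc p m r
      simp only [Dp, jmp, muC, upd]
      by_cases q1 : l ≤ x p ∧ x p < m
      · have q2 : ¬ (m ≤ x p ∧ x p < r) := by omega
        rw [if_pos q1] at e1
        rw [if_neg q2] at e2
        simp only [q1, and_self, if_true, hdL]
        rw [e1, e2]
        push_cast
        ring_nf
      · by_cases q2 : m ≤ x p ∧ x p < r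
        · rw [if_neg q1] at e1
          rw [if_pos q2] at e2
          simp only [if_neg q1, if_pos q2, hdR]
          rw [e1, e2]
          push_cast
          ring_nf
        · rw [if_neg q1] at e1
          rw [if_neg q2] at e2
          simp only [if_neg q1, if_neg q2]
          rw [e1, e2]
          push_cast
          ring_nf
    have hN : ∀ p, Np x c cp p (AS.node m b p0 A C) l r =
        (if l ≤ x p ∧ x p < m then nL else if m ≤ x p ∧ x p < r then nR else 0) +
          Np x c cp p A l m + Np x c cp p C m r := by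
      intro p
      have e1 := hc p l m
      have e2 := hc p m r
      simp only [Np, nuC, upd]
      by_cases q1 : l ≤ x p ∧ x p < m
      · have q2 : ¬ (m ≤ x p ∧ x p < r) := by omega
        rw [if_pos q1] at e1
        rw [if_neg q2] at e2
        simp only [q1, and_self, if_true, hnL]
        rw [e1, e2]
        push_cast
        ring_nf
      · by_cases q2 : m ≤ x p ∧ x p < r
        · rw [if_neg q1] at e1
          rw [if_pos q2] at e2
          simp only [if_neg q1, if_pos q2, hnR]
          rw [e1, e2]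
          push_cast
          ring_nf
        · rw [if_neg q1] at e1
          rw [if_neg q2] at e2
          simp only [if_neg q1, if_neg q2]
          rw [e1, e2]
          push_cast
          ring_nf
    have cL : (∑ p, if l ≤ x p ∧ x p < m then (1 : ℝ) else 0) = c l m := by
      rw [hs l m]; push_cast; rfl
    have cR : (∑ p, if m ≤ x p ∧ x p < r then (1 : ℝ) else 0) = c m r := by
      rw [hs m r]; push_cast; rfl
    have t1 : (∑ p, if l ≤ x p ∧ x p < m then dL else if m ≤ x p ∧ x p < r then dR else 0) = 0 := by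
      rw [sum_three (fun p => l ≤ x p ∧ x p < m) (fun p => m ≤ x p ∧ x p < r)
        (fun i h h' => by omega), cL, cR]
      have := Ev_rec' b (c l m) (c m r)
      linarith
    have t2 : (∑ p, if l ≤ x p ∧ x p < m then dL ^ 2 + nL else
        if m ≤ x p ∧ x p < r then dR ^ 2 + nR else 0) = 0 := by
      rw [sum_three (fun p => l ≤ x p ∧ x p < m) (fun p => m ≤ x p ∧ x p < r)
        (fun i h h' => by omega), cL, cR]
      have := Vv_rec b (c l m) (c m r)
      rw [← hdL, ← hdR] at this
      simp only [hnL, hnR]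
      linarith
    have hpt : ∀ p, (Dp x c cp p (AS.node m b p0 A C) l r) ^ 2 +
        Np x c cp p (AS.node m b p0 A C) l r =
        (if l ≤ x p ∧ x p < m then dL ^ 2 + nL else
          if m ≤ x p ∧ x p < r then dR ^ 2 + nR else 0) +
        ((Dp x c cp p A l m) ^ 2 + Np x c cp p A l m) +
        ((Dp x c cp p C m r) ^ 2 + Np x c cp p C m r) +
        2 * dL * Dp x c cp p A l m + 2 * dR * Dp x c cp p C m r := by
      intro p
      rw [hD, hN]
      by_cases q1 : l ≤ x p ∧ x p < m
      · have q2 : ¬ (m ≤ x p ∧ x p < r) := by omega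
        have o := (Dp_out x c cp hc p C m r h4 q2).1
        simp only [if_pos q1]
        rw [o]
        ring
      · by_cases q2 : m ≤ x p ∧ x p < r
        · have o := (Dp_out x c cp hc p A l m h3 q1).1
          simp only [if_neg q1, if_pos q2]
          rw [o]
          ring
        · have o1 := (Dp_out x c cp hc p A l m h3 q1).1
          have o2 := (Dp_out x c cp hc p C m r h4 q2).1
          simp only [if_neg q1, if_neg q2]
          rw [o1, o2]
          ring
    refine ⟨?_, ?_⟩
    · simp_rw [hD]
      rw [Finset.sum_add_distrib, Finset.sum_add_distrib, t1, a1, c1]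
      ring
    · simp_rw [hpt]
      rw [Finset.sum_add_distrib, Finset.sum_add_distrib, Finset.sum_add_distrib,
        Finset.sum_add_distrib, t2, a2, c2, ← Finset.mul_sum, ← Finset.mul_sum, a1, c1]
      ring

end

/-- First and second moment of the value over all orderings. -/
theorem moments : ∀ (N : ℕ) (X : Fin N → ℕ) (s : AS) (l r : ℕ), ok s l r →
    (∑ σ : Equiv.Perm (Fin N), (val s l r (List.ofFn fun i => X (σ i)) : ℝ)) =
      N.factorial * muC (cF X) s l r ∧
    (∑ σ : Equiv.Perm (Fin N), (val s l r (List.ofFn fun i => X (σ i)) : ℝ) ^ 2) =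
      N.factorial * ((muC (cF X) s l r) ^ 2 + nuC (cF X) s l r) := by
  intro N
  induction N with
  | zero =>
    intro X s l r _
    have h0 : ∀ (s : AS) (l r : ℕ), val s l r [] = 0 ∧ muC (cF X) s l r = 0 ∧
        nuC (cF X) s l r = 0 := by
      intro s
      induction s with
      | leaf => intro l r; simp [val, muC, nuC]
      | node m b p A C ihA ihC =>
        intro l r
        obtain ⟨a1, a2, a3⟩ := ihA l m
        obtain ⟨c1, c2, c3⟩ := ihC m r
        simp [val, muC, nuC, cnt, cF, Ev, Vv, a1, a2, a3, c1, c2, c3]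
    obtain ⟨q1, q2, q3⟩ := h0 s l r
    simp [q1, q2, q3]
  | succ N ih =>
    intro X s l r hok
    have key : ∀ p : Fin (N + 1), ∃ X' : Fin N → ℕ,
        (∀ l r, cF X l r = (if l ≤ X p ∧ X p < r then 1 else 0) + cF X' l r) ∧
        (∑ e : Equiv.Perm (Fin N),
          (val s l r (List.ofFn fun i => X (Equiv.Perm.decomposeFin.symm (p, e) i)) : ℝ)) =
          N.factorial * (jmp (X p) s l r + muC (cF X') (upd (X p) s l r) l r) ∧
        (∑ e : Equiv.Perm (Fin N),
          (val s l r (List.ofFn fun i => X (Equiv.Perm.decomposeFin.symm (p, e) i)) : ℝ) ^ 2) =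
          N.factorial * ((jmp (X p) s l r + muC (cF X') (upd (X p) s l r) l r) ^ 2 +
            nuC (cF X') (upd (X p) s l r) l r) := by
      intro p
      obtain ⟨X', hX'⟩ : ∃ X' : Fin N → ℕ, ∀ j, X' j = X (Equiv.swap 0 p j.succ) :=
        ⟨fun j => X (Equiv.swap 0 p j.succ), fun _ => rfl⟩
      have e1 : ∀ e : Equiv.Perm (Fin N),
          (List.ofFn fun i => X (Equiv.Perm.decomposeFin.symm (p, e) i)) =
          X p :: List.ofFn fun i => X' (e i) := by
        intro e
        rw [List.ofFn_succ, Equiv.Perm.decomposeFin_symm_apply_zero]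
        congr 1
        congr 1
        funext i
        rw [Equiv.Perm.decomposeFin_symm_apply_succ, hX']
      have s1 : ∀ l r, cF X l r = (if l ≤ X p ∧ X p < r then 1 else 0) + cF X' l r := by
        intro l r
        rw [cF_swap X p l r]; unfold cF; simp_rw [hX']
      obtain ⟨i1, i2⟩ := ih X' (upd (X p) s l r) l r (upd_ok (X p) s l r hok)
      refine ⟨X', s1, ?_, ?_⟩
      · simp_rw [e1, val_cons]
        push_cast
        rw [Finset.sum_add_distrib, i1, Finset.sum_const, Finset.card_univ, Fintype.card_perm,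
          Fintype.card_fin, nsmul_eq_mul]
        ring
      · simp_rw [e1, val_cons]
        push_cast
        have : ∀ e : Equiv.Perm (Fin N), ((jmp (X p) s l r : ℝ) +
            (val (upd (X p) s l r) l r (List.ofFn fun i => X' (e i)) : ℝ)) ^ 2 =
            (jmp (X p) s l r : ℝ) ^ 2 + 2 * jmp (X p) s l r *
              (val (upd (X p) s l r) l r (List.ofFn fun i => X' (e i)) : ℝ) +
              (val (upd (X p) s l r) l r (List.ofFn fun i => X' (e i)) : ℝ) ^ 2 := by
          intro e; ring
        simp_rw [this]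
        rw [Finset.sum_add_distrib, Finset.sum_add_distrib, ← Finset.mul_sum, i1, i2,
          Finset.sum_const, Finset.card_univ, Fintype.card_perm, Fintype.card_fin, nsmul_eq_mul]
        ring
    choose X' k1 k2 k3 using key
    obtain ⟨d1, d2⟩ := Dp_sum X (cF X) (fun p => cF (X' p)) (fun p l r => k1 p l r)
      (fun l r => rfl) s l r hok
    have f1 : ∀ p, (jmp (X p) s l r : ℝ) + muC (cF (X' p)) (upd (X p) s l r) l r =
        Dp X (cF X) (fun p => cF (X' p)) p s l r + muC (cF X) s l r := by
      intro p; simp only [Dp]; ring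
    have f2 : ∀ p, nuC (cF (X' p)) (upd (X p) s l r) l r =
        Np X (cF X) (fun p => cF (X' p)) p s l r + nuC (cF X) s l r := by
      intro p; simp only [Np]; ring
    refine ⟨?_, ?_⟩
    · rw [← Equiv.sum_comp Equiv.Perm.decomposeFin.symm, Fintype.sum_prod_type,
        Finset.sum_congr rfl (fun p _ => k2 p), ← Finset.mul_sum]
      simp_rw [f1]
      rw [Finset.sum_add_distrib, d1, Finset.sum_const, Finset.card_univ, Fintype.card_fin,
        nsmul_eq_mul, Nat.factorial_succ]
      push_cast
      ring
    · rw [← Equiv.sum_comp Equiv.Perm.decomposeFin.symm, Fintype.sum_prod_type,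
        Finset.sum_congr rfl (fun p _ => k3 p), ← Finset.mul_sum]
      simp_rw [f1, f2]
      have : ∀ p, (Dp X (cF X) (fun p => cF (X' p)) p s l r + muC (cF X) s l r) ^ 2 +
          (Np X (cF X) (fun p => cF (X' p)) p s l r + nuC (cF X) s l r) =
          ((Dp X (cF X) (fun p => cF (X' p)) p s l r) ^ 2 +
            Np X (cF X) (fun p => cF (X' p)) p s l r) +
          2 * muC (cF X) s l r * Dp X (cF X) (fun p => cF (X' p)) p s l r +
          ((muC (cF X) s l r) ^ 2 + nuC (cF X) s l r) := by
        intro p; ring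
      simp_rw [this]
      rw [Finset.sum_add_distrib, Finset.sum_add_distrib, d2, ← Finset.mul_sum, d1,
        Finset.sum_const, Finset.card_univ, Fintype.card_fin, nsmul_eq_mul, Nat.factorial_succ]
      push_cast
      ring

end Pool.Agent.TH49.Spl
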