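import Pool.Agent.TH49.Spl.Fin
import Pool.Agent.TH49.Spl.AvgSq

set_option autoImplicit false

/-! Splay trees are competitive on almost all orderings inside the windows. -/

namespace Pool.Agent.TH49.Spl

open Pool.Agent.H581R2.Splay Tr

theorem cF_eq_cB (B : List ℕ) : cF (fun i : Fin B.length => B.get i) = cB B := by
  funext l r
  exact cB_get B l r

theorem vB_eq_muC (B : List ℕ) : ∀ (s : AS) (l r : ℕ), clean s →
    vB B s l r = muC (cB B) s l r := by
  intro s
  induction s with
  | leaf => intro l r _; rfl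
  | node m b p A C ihA ihC =>
    intro l r h
    obtain ⟨h1, h2, h3, h4⟩ := h
    simp only [vB, muC, h1, ihA l m h3, ihC m r h4]

theorem Vv_le (a b : ℕ) : Vv false a b ≤ Ev false a b / 2 := by
  unfold Vv Ev
  simp only [Bool.false_eq_true, if_false]
  by_cases h : a + b ≤ 1
  · have : a = 0 ∨ b = 0 := by omega
    rcases this with h | h <;> subst h <;> simp
  · have hN : (2 : ℝ) ≤ (a : ℝ) + b := by
      have : 2 ≤ a + b := by omega
      exact_mod_cast this
    have h1 : (0 : ℝ) < (a : ℝ) + b := by linarith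
    have h2 : (0 : ℝ) < (a : ℝ) + b - 1 := by linarith
    have ha : (0 : ℝ) ≤ (a : ℝ) * (a - 1) := by
      rcases Nat.eq_zero_or_pos a with h | h
      · subst h; simp
      · have : (1 : ℝ) ≤ a := by exact_mod_cast h
        exact mul_nonneg (by linarith) (by linarith)
    have hb : (0 : ℝ) ≤ (b : ℝ) * (b - 1) := by
      rcases Nat.eq_zero_or_pos b with h | h
      · subst h; simp
      · have : (1 : ℝ) ≤ b := by exact_mod_cast h
        exact mul_nonneg (by linarith) (by linarith)
    have key : 2 * ((a : ℝ) * b) ≤ (a + b) * (a + b - 1) := by nlinarith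
    have hab : (0 : ℝ) ≤ (a : ℝ) * b := by positivity
    rw [div_div, div_le_div_iff₀ (by positivity) (by positivity)]
    calc (a : ℝ) ^ 2 * b ^ 2 * ((a + b) * 2) = (a * b) * (a + b) * (2 * (a * b)) := by ring
      _ ≤ (a * b) * (a + b) * ((a + b) * (a + b - 1)) :=
          mul_le_mul_of_nonneg_left key (by positivity)
      _ = a * b * ((a + b) ^ 2 * (a + b - 1)) := by ring

theorem nuC_le (c : ℕ → ℕ → ℕ) : ∀ (s : AS) (l r : ℕ), clean s →
    0 ≤ muC c s l r ∧ nuC c s l r ≤ muC c s l r / 2 := by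
  intro s
  induction s with
  | leaf => intro l r _; simp [nuC, muC]
  | node m b p A C ihA ihC =>
    intro l r h
    obtain ⟨h1, h2, h3, h4⟩ := h
    obtain ⟨a1, a2⟩ := ihA l m h3
    obtain ⟨c1, c2⟩ := ihC m r h4
    have q := Vv_le (c l m) (c m r)
    have q0 : 0 ≤ Ev false (c l m) (c m r) := by
      unfold Ev; positivity
    simp only [nuC, muC, h1]
    constructor <;> linarith

theorem pi_cross {ι : Type} [Fintype ι] [DecidableEq ι] {β : ι → Type} [∀ i, Fintype (β i)]
    {i j : ι} (hij : j ≠ i) (f : β i → ℝ) (g : β j → ℝ) (hf : ∑ τ, f τ = 0) :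
    (∑ σ : (∀ i, β i), f (σ i) * g (σ j)) = 0 := by
  have e1 : (∑ σ : (∀ i, β i), f (σ i) * g (σ j)) =
      ∑ p : β i × ((a : {a // a ≠ i}) → β a), f p.1 * g (p.2 ⟨j, hij⟩) :=
    Fintype.sum_equiv (Equiv.piSplitAt i β) _ _ (fun σ => by simp [Equiv.piSplitAt])
  rw [e1, Fintype.sum_prod_type]
  simp_rw [← Finset.mul_sum]
  rw [← Finset.sum_mul, hf, zero_mul]

/-- The second moment of a sum of centred functions of different coordinates. -/
theorem pi_second {J : ℕ} {β : Fin J → Type} [∀ i, Fintype (β i)] [∀ i, Nonempty (β i)]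
    (f : (j : Fin J) → β j → ℝ) (ν : Fin J → ℝ) (h1 : ∀ j, ∑ τ, f j τ = 0)
    (h2 : ∀ j, ∑ τ, (f j τ) ^ 2 = Fintype.card (β j) * ν j) :
    (∑ σ : (∀ j, β j), (∑ j, f j (σ j)) ^ 2) = Fintype.card (∀ j, β j) * ∑ j, ν j := by
  have e1 : ∀ σ : (∀ j, β j), (∑ j, f j (σ j)) ^ 2 =
      ∑ i, ∑ j, f i (σ i) * f j (σ j) := by
    intro σ
    rw [sq, Finset.sum_mul_sum]
  simp_rw [e1]
  rw [Finset.sum_comm, Finset.mul_sum]
  refine Finset.sum_congr rfl fun i _ => ?_
  rw [Finset.sum_comm, Finset.sum_eq_single i]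
  · have e := pi_sum (β := β) i (fun τ => (f i τ) ^ 2)
    rw [h2 i] at e
    have hc : (Fintype.card (β i) : ℝ) ≠ 0 := by
      exact_mod_cast Fintype.card_ne_zero
    have : (∑ σ : (∀ j, β j), f i (σ i) * f i (σ i)) = ∑ σ : (∀ j, β j), (f i (σ i)) ^ 2 :=
      Finset.sum_congr rfl fun σ _ => by ring
    rw [this]
    refine mul_right_cancel₀ hc ?_
    rw [e]; ring
  · intro j _ hji
    exact pi_cross hji (f i) (f j) (h1 i)
  · intro h; exact absurd (Finset.mem_univ i) h

/-- The data behind the comparison: the means `V j`, and the values of the schemes. -/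
theorem setup {k L J : ℕ} (hk : 1 ≤ k) {T : Tr} (hT : IsBST T) (h1 : 1 ≤ (keys T).length)
    (hn : (keys T).length ≤ L ^ k) (B : Fin J → List ℕ) (hB : ∀ j, ∀ x ∈ B j, x ∈ keys T)
    (hL : ∀ j, L ≤ (B j).length) :
    ∃ (V ν : Fin J → ℝ) (f : (j : Fin J) → Equiv.Perm (Fin (B j).length) → ℝ),
      (∀ j, 0 ≤ V j) ∧ (∀ j, ν j ≤ V j / 2) ∧
      (∀ j, ∑ τ, f j τ = (B j).length.factorial * V j) ∧
      (∀ j, ∑ τ, (f j τ) ^ 2 = (B j).length.factorial * ((V j) ^ 2 + ν j)) ∧
      (∀ σ₀ : (j : Fin J) → Equiv.Perm (Fin (B j).length),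
        (costSplay T (cat (shuf B σ₀)) : ℝ) ≤ 23 * k * (4 * ∑ j, V j + ∑ j, ((B j).length : ℝ)) +
          (keys T).length * Real.logb 2 (2 * (keys T).length)) ∧
      (∀ σ : (j : Fin J) → Equiv.Perm (Fin (B j).length),
        ∑ j, ((B j).length : ℝ) ≤ (optAny (keys T) (cat (shuf B σ)) : ℝ) ∧
        ∑ j, f j (σ j) ≤ 2 * (optAny (keys T) (cat (shuf B σ)) : ℝ)) := by
  obtain ⟨R, hR⟩ : ∃ R, ∀ x ∈ keys T, x < R := ⟨(keys T).toFinset.sup id + 1, fun x hx =>
    Nat.lt_succ_of_le (Finset.le_sup (f := id) (List.mem_toFinset.2 hx))⟩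
  have hL1 : 1 ≤ L := by
    by_contra hcon
    have : L = 0 := by omega
    subst this
    rw [zero_pow (by omega)] at hn
    omega
  choose s O a1 a2 a3 a4 a5 a6 using fun j => median (B j) R 0 R (by omega) (by omega)
  have hBO : ∀ j, ∀ x ∈ B j, x ∈ keys (O j) := fun j x hx =>
    a5 j x hx (by omega) (hR x (hB j x hx))
  have hS : ∀ j, ((B j).map fun x => (dep x (O j) : ℝ)).sum = dB (B j) (O j) 0 R := by
    intro j
    unfold dB
    push_cast
    rw [List.map_map]
    congr 1
    refine List.map_congr_left fun x hx => ?_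
    simp only [Function.comp]
    rw [if_pos ⟨by omega, hR x (hB j x hx)⟩]
  set S : Fin J → ℝ := fun j => ((B j).map fun x => (dep x (O j) : ℝ)).sum with hSdef
  have hS0 : ∀ j, 0 ≤ S j := by
    intro j
    simp only [hSdef]
    rw [hS j]
    positivity
  have hSV : ∀ j, S j ≤ 4 * muC (cB (B j)) (s j) 0 R := by
    intro j
    rw [← vB_eq_muC _ _ _ _ (a2 j)]
    simp only [hSdef]
    rw [hS j]
    exact a6 j
  have hnpos : (0 : ℝ) < (keys T).length := by exact_mod_cast h1
  have hlogn : Real.logb 2 (2 * (keys T).length) ≤ 1 + k * Real.logb 2 L := by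
    rw [Real.logb_mul (by norm_num) hnpos.ne', Real.logb_self_eq_one (by norm_num)]
    have : Real.logb 2 ((keys T).length : ℝ) ≤ Real.logb 2 ((L : ℝ) ^ k) :=
      logb_mono hnpos (by exact_mod_cast hn)
    rw [Real.logb_pow] at this
    linarith
  have hk' : (1 : ℝ) ≤ k := by exact_mod_cast hk
  refine ⟨fun j => muC (cB (B j)) (s j) 0 R, fun j => nuC (cB (B j)) (s j) 0 R,
    fun j τ => (val (s j) 0 R (List.ofFn fun i => (B j).get (τ i)) : ℝ),
    fun j => (nuC_le _ _ _ _ (a2 j)).1, fun j => (nuC_le _ _ _ _ (a2 j)).2, ?_, ?_, ?_, ?_⟩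
  · intro j
    have := (moments (B j).length (fun i => (B j).get i) (s j) 0 R (a1 j)).1
    rw [cF_eq_cB] at this
    exact this
  · intro j
    have := (moments (B j).length (fun i => (B j).get i) (s j) 0 R (a1 j)).2
    rw [cF_eq_cB] at this
    exact this
  · intro σ₀
    have up := splay_windowsF h1 (shuf B σ₀) (fun j => 23 * k * (S j + (B j).length)) T hT rfl
      (fun j x hx => hB j x ((shuf_perm B σ₀ j).mem_iff.1 hx)) (by
        intro j
        have hp := shuf_perm B σ₀ j
        refine ⟨O j, a3 j, fun x hx => hBO j x (hp.mem_iff.1 hx), ?_⟩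
        have e1 : ((shuf B σ₀ j).map fun x => (8 + 6 * dep x (O j) : ℝ)).sum =
            8 * (B j).length + 6 * S j := by
          rw [(hp.map _).sum_eq]
          simp only [hSdef]
          rw [List.sum_map_add, List.sum_map_mul_left, List.map_const', List.sum_replicate,
            nsmul_eq_mul]
          ring
        have e2 : (shuf B σ₀ j).toFinset = (B j).toFinset := List.toFinset_eq_of_perm _ _ hp
        rw [e1, e2]
        have hq := qlog (a3 j) (hBO j) hL1 (hL j)
        have hqm : ((B j).toFinset.card : ℝ) ≤ (B j).length := by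
          exact_mod_cast List.toFinset_card_le (B j)
        have hq0 : (0 : ℝ) ≤ (B j).toFinset.card := Nat.cast_nonneg _
        have hm0 : (0 : ℝ) ≤ (B j).length := Nat.cast_nonneg _
        have s0 := hS0 j
        have h3 : ((B j).toFinset.card : ℝ) * Real.logb 2 (2 * (keys T).length) ≤
            (B j).length + k * (4 * (S j + (B j).length)) := by
          calc ((B j).toFinset.card : ℝ) * Real.logb 2 (2 * (keys T).length)
              ≤ (B j).toFinset.card * (1 + k * Real.logb 2 L) :=
                mul_le_mul_of_nonneg_left hlogn hq0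
            _ = (B j).toFinset.card + k * ((B j).toFinset.card * Real.logb 2 L) := by ring
            _ ≤ (B j).length + k * (4 * (S j + (B j).length)) := by
                have := mul_le_mul_of_nonneg_left hq (show (0 : ℝ) ≤ k by linarith)
                linarith
        have h4 : 11 * ((B j).length : ℝ) + 6 * S j ≤ 11 * (k * (S j + (B j).length)) := by
          have : (S j + (B j).length) ≤ k * (S j + (B j).length) := by nlinarith
          linarith
        linarith)
    refine le_trans up ?_
    rw [← Finset.mul_sum, Finset.sum_add_distrib]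
    have : ∑ j, S j ≤ 4 * ∑ j, muC (cB (B j)) (s j) 0 R := by
      rw [Finset.mul_sum]
      exact Finset.sum_le_sum fun j _ => hSV j
    have h5 : 23 * (k : ℝ) * (∑ j, S j + ∑ j, ((B j).length : ℝ)) ≤
        23 * k * (4 * ∑ j, muC (cB (B j)) (s j) 0 R + ∑ j, ((B j).length : ℝ)) :=
      mul_le_mul_of_nonneg_left (by linarith) (by positivity)
    linarith
  · intro σ
    refine ⟨?_, ?_⟩
    · refine optAny_ge (T := T) rfl ?_
      intro T' c hT' hE
      refine exec_windows (K := keys T) J (shuf B σ) _ ?_ T' c hT' hE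
      intro j T'' c'' _ hE''
      have g1 := exec_length hE''
      rw [(shuf_perm B σ j).length_eq] at g1
      exact_mod_cast g1
    · have : (∑ j, (val (s j) 0 R (List.ofFn fun i => (B j).get (σ j i)) : ℝ)) / 2 ≤
          (optAny (keys T) (cat (shuf B σ)) : ℝ) := by
        refine optAny_ge (T := T) rfl ?_
        intro T' c hT' hE
        rw [Finset.sum_div]
        refine exec_windows (K := keys T) J (shuf B σ) _ ?_ T' c hT' hE
        intro j T'' c'' hT'' hE''
        have hb'' : IsBST T'' := by unfold IsBST; rw [hT'']; exact hT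
        have g2 := exec_val hE'' hb'' (fun x hx => by
          rw [hT'']; exact hB j x ((shuf_perm B σ j).mem_iff.1 hx)) (s j) 0 R (a1 j)
          (clean_inv T'' (s j) 0 R (a2 j))
        rw [clean_cred (s j) (a2 j)] at g2
        have g2' : (val (s j) 0 R (List.ofFn fun i => (B j).get (σ j i)) : ℝ) ≤ 2 * c'' := by
          have : val (s j) 0 R (List.ofFn fun i => (B j).get (σ j i)) ≤ 2 * c'' + 0 := g2
          have h' : val (s j) 0 R (List.ofFn fun i => (B j).get (σ j i)) ≤ 2 * c'' := by omega
          exact_mod_cast h'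
        linarith
      linarith

open Classical in
/-- The comparison holds for all but a fraction `2 / M` of the orderings inside the windows, `M`
being the number of requests. -/
theorem almost_all {k L J : ℕ} (hk : 1 ≤ k) {T : Tr} (hT : IsBST T) (h1 : 1 ≤ (keys T).length)
    (hn : (keys T).length ≤ L ^ k) (B : Fin J → List ℕ) (hB : ∀ j, ∀ x ∈ B j, x ∈ keys T)
    (hL : ∀ j, L ≤ (B j).length) :
    (Fintype.card {σ : (j : Fin J) → Equiv.Perm (Fin (B j).length) //
      ∃ σ₀ : (j : Fin J) → Equiv.Perm (Fin (B j).length),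
        460 * k * (optAny (keys T) (cat (shuf B σ)) : ℝ) +
          (keys T).length * Real.logb 2 (2 * (keys T).length) <
            costSplay T (cat (shuf B σ₀))} : ℝ) * ∑ j, ((B j).length : ℝ) ≤
      2 * Fintype.card ((j : Fin J) → Equiv.Perm (Fin (B j).length)) := by
  obtain ⟨V, ν, f, hV0, hν, hf1, hf2, hup, hlow⟩ := setup hk hT h1 hn B hB hL
  have hk' : (1 : ℝ) ≤ k := by exact_mod_cast hk
  set Ω := (j : Fin J) → Equiv.Perm (Fin (B j).length) with hΩ
  set M : ℝ := ∑ j, ((B j).length : ℝ) with hM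
  set W : ℝ := ∑ j, V j with hW
  have hM0 : 0 ≤ M := Finset.sum_nonneg fun j _ => Nat.cast_nonneg _
  have hW0 : 0 ≤ W := Finset.sum_nonneg fun j _ => hV0 j
  set bad : Finset Ω := Finset.univ.filter fun σ : Ω => ∃ σ₀ : Ω,
    460 * k * (optAny (keys T) (cat (shuf B σ)) : ℝ) +
      (keys T).length * Real.logb 2 (2 * (keys T).length) <
        costSplay T (cat (shuf B σ₀)) with hbad
  have hcard : Fintype.card {σ : Ω // ∃ σ₀ : Ω,
      460 * k * (optAny (keys T) (cat (shuf B σ)) : ℝ) +
        (keys T).length * Real.logb 2 (2 * (keys T).length) <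
          costSplay T (cat (shuf B σ₀))} = bad.card := by
    rw [Fintype.card_subtype]
  rw [hcard]
  by_cases hWM : W ≤ M
  · have : bad = ∅ := by
      rw [hbad, Finset.filter_eq_empty_iff]
      rintro σ - ⟨σ₀, h⟩
      have u := hup σ₀
      obtain ⟨l1, -⟩ := hlow σ
      have : 23 * (k : ℝ) * (4 * W + M) ≤ 460 * k * (optAny (keys T) (cat (shuf B σ)) : ℝ) := by
        calc 23 * (k : ℝ) * (4 * W + M) ≤ 23 * k * (5 * M) :=
              mul_le_mul_of_nonneg_left (by linarith) (by positivity)
          _ = 115 * k * M := by ring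
          _ ≤ 460 * k * M := by
              refine mul_le_mul_of_nonneg_right ?_ hM0
              linarith
          _ ≤ 460 * k * (optAny (keys T) (cat (shuf B σ)) : ℝ) :=
              mul_le_mul_of_nonneg_left l1 (by positivity)
      linarith
    rw [this]
    simp only [Finset.card_empty, Nat.cast_zero, zero_mul]
    positivity
  · have hWM' : M < W := not_le.1 hWM
    have hWpos : 0 < W := lt_of_le_of_lt hM0 hWM'
    -- a bad ordering has a small value
    have hb1 : ∀ σ ∈ bad, (W / 2) ^ 2 ≤ (∑ j, (f j (σ j) - V j)) ^ 2 := by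
      intro σ hσ
      rw [hbad, Finset.mem_filter] at hσ
      obtain ⟨-, σ₀, h⟩ := hσ
      have u := hup σ₀
      obtain ⟨-, l2⟩ := hlow σ
      have hlt : ∑ j, f j (σ j) < W / 2 := by
        by_contra hcon
        have hcon' : W / 2 ≤ ∑ j, f j (σ j) := not_lt.1 hcon
        have l3 : W / 4 ≤ (optAny (keys T) (cat (shuf B σ)) : ℝ) := by linarith
        have : 23 * (k : ℝ) * (4 * W + M) ≤
            460 * k * (optAny (keys T) (cat (shuf B σ)) : ℝ) := by
          calc 23 * (k : ℝ) * (4 * W + M) ≤ 23 * k * (5 * W) :=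
                mul_le_mul_of_nonneg_left (by linarith) (by positivity)
            _ = 460 * k * (W / 4) := by ring
            _ ≤ 460 * k * (optAny (keys T) (cat (shuf B σ)) : ℝ) :=
                mul_le_mul_of_nonneg_left l3 (by positivity)
        linarith
      rw [Finset.sum_sub_distrib, ← hW]
      nlinarith
    have hsec : (∑ σ : Ω, (∑ j, (f j (σ j) - V j)) ^ 2) = Fintype.card Ω * ∑ j, ν j := by
      refine pi_second (β := fun j => Equiv.Perm (Fin (B j).length))
        (fun j τ => f j τ - V j) ν ?_ ?_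
      · intro j
        rw [Finset.sum_sub_distrib, hf1 j, Finset.sum_const, Finset.card_univ,
          Fintype.card_perm, Fintype.card_fin, nsmul_eq_mul]
        ring
      · intro j
        have : ∀ τ, (f j τ - V j) ^ 2 = (f j τ) ^ 2 - 2 * V j * f j τ + (V j) ^ 2 := by
          intro τ; ring
        simp_rw [this]
        rw [Finset.sum_add_distrib, Finset.sum_sub_distrib, ← Finset.mul_sum, hf1 j, hf2 j,
          Finset.sum_const, Finset.card_univ, Fintype.card_perm, Fintype.card_fin, nsmul_eq_mul]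
        ring
    have hν' : ∑ j, ν j ≤ W / 2 := by
      rw [hW, Finset.sum_div]
      exact Finset.sum_le_sum fun j _ => hν j
    have hsum : (bad.card : ℝ) * (W / 2) ^ 2 ≤ Fintype.card Ω * (W / 2) := by
      calc (bad.card : ℝ) * (W / 2) ^ 2 = ∑ σ ∈ bad, (W / 2) ^ 2 := by
            rw [Finset.sum_const, nsmul_eq_mul]
        _ ≤ ∑ σ ∈ bad, (∑ j, (f j (σ j) - V j)) ^ 2 := Finset.sum_le_sum hb1
        _ ≤ ∑ σ : Ω, (∑ j, (f j (σ j) - V j)) ^ 2 :=
            Finset.sum_le_sum_of_subset_of_nonneg (Finset.subset_univ _)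
              (fun _ _ _ => by positivity)
        _ = Fintype.card Ω * ∑ j, ν j := hsec
        _ ≤ Fintype.card Ω * (W / 2) := mul_le_mul_of_nonneg_left hν' (Nat.cast_nonneg _)
    have h5 : (bad.card : ℝ) * W ≤ 2 * Fintype.card Ω := by
      have : (bad.card : ℝ) * W * (W / 4) ≤ 2 * Fintype.card Ω * (W / 4) := by nlinarith
      exact le_of_mul_le_mul_right this (by positivity)
    have h6 : (bad.card : ℝ) * M ≤ bad.card * W :=
      mul_le_mul_of_nonneg_left hWM'.le (Nat.cast_nonneg _)
    linarith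

end Pool.Agent.TH49.Spl
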