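import Pool.Agent.TH49.Spl.Low

set_option autoImplicit false

/-! The average number of changes from left to right over all orderings of a list. -/

namespace Pool.Agent.TH49.Spl

open Pool.Agent.H581R2.Splay

/-- the averages, in the two states -/
noncomputable def Ev (b0 : Bool) (a b : ℝ) : ℝ := (if b0 then a + 1 else a) * b / (a + b)

theorem Ev_rec (b0 : Bool) (a b : ℕ) (a' b' : ℝ) (ha : a ≠ 0 → a' = a - 1)
    (hb : b ≠ 0 → b' = b - 1) :
    (a : ℝ) * Ev true a' b + b * ((if b0 then 1 else 0) + Ev false a b') =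
      (a + b) * Ev b0 a b := by
  rcases Nat.eq_zero_or_pos a with h1 | h1
  · subst h1
    rcases Nat.eq_zero_or_pos b with h2 | h2
    · subst h2; simp
    · have hb2 : (b : ℝ) ≠ 0 := by positivity
      cases b0 <;> simp [Ev, hb2]
  · have ea := ha (by omega)
    subst ea
    rcases Nat.eq_zero_or_pos b with h2 | h2
    · subst h2
      simp [Ev]
    · have eb := hb (by omega)
      subst eb
      have h3 : (1 : ℝ) ≤ a := by exact_mod_cast h1
      have h4 : (1 : ℝ) ≤ b := by exact_mod_cast h2
      have n1 : (a : ℝ) - 1 + b ≠ 0 := by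
        have : (0 : ℝ) < (a : ℝ) - 1 + b := by linarith
        exact this.ne'
      have n2 : (a : ℝ) + (b - 1) ≠ 0 := by
        have : (0 : ℝ) < (a : ℝ) + (b - 1) := by linarith
        exact this.ne'
      have n3 : (a : ℝ) + b ≠ 0 := by positivity
      cases b0
      · simp only [Ev, Bool.false_eq_true, if_false, if_true]
        rw [show (a : ℝ) + (b - 1) = a - 1 + b by ring]
        field_simp
        ring
      · simp only [Ev, Bool.false_eq_true, if_false, if_true]
        rw [show (a : ℝ) + (b - 1) = a - 1 + b by ring]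
        field_simp
        ring

/-- number of entries in `[l, r)` -/
def cF {m : ℕ} (X : Fin m → ℕ) (l r : ℕ) : ℕ := ∑ i, if l ≤ X i ∧ X i < r then 1 else 0

theorem cF_swap {m : ℕ} (X : Fin (m + 1) → ℕ) (p : Fin (m + 1)) (l r : ℕ) :
    cF X l r = (if l ≤ X p ∧ X p < r then 1 else 0) +
      cF (fun i : Fin m => X (Equiv.swap 0 p i.succ)) l r := by
  unfold cF
  rw [← Equiv.sum_comp (Equiv.swap 0 p), Fin.sum_univ_succ]
  simp

theorem sum_three {ι : Type} [Fintype ι] (P Q : ι → Prop) [DecidablePred P] [DecidablePred Q]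
    (hPQ : ∀ i, P i → ¬ Q i) (u v w : ℝ) :
    (∑ i, if P i then u else if Q i then v else w) =
      (∑ i, if P i then (1 : ℝ) else 0) * u + (∑ i, if Q i then (1 : ℝ) else 0) * v +
        ((Fintype.card ι : ℝ) - (∑ i, if P i then (1 : ℝ) else 0) -
          (∑ i, if Q i then (1 : ℝ) else 0)) * w := by
  have h : ∀ i, (if P i then u else if Q i then v else w) =
      (if P i then (1 : ℝ) else 0) * (u - w) + (if Q i then (1 : ℝ) else 0) * (v - w) + w := by
    intro i
    by_cases h1 : P i
    · simp [h1, hPQ i h1]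
    · by_cases h2 : Q i <;> simp [h1, h2]
  simp_rw [h]
  rw [Finset.sum_add_distrib, Finset.sum_add_distrib, ← Finset.sum_mul, ← Finset.sum_mul]
  simp only [Finset.sum_const, Finset.card_univ, nsmul_eq_mul]
  ring

/-- The average of `cnt` over all orderings. -/
theorem avg_cnt (l m r : ℕ) (hlm : l ≤ m) : ∀ (N : ℕ) (X : Fin N → ℕ) (b0 : Bool),
    (∑ σ : Equiv.Perm (Fin N), (cnt l m r b0 (List.ofFn fun i => X (σ i)) : ℝ)) =
      N.factorial * Ev b0 (cF X l m) (cF X m r) := by
  intro N
  induction N with
  | zero => intro X b0; simp [cnt, cF, Ev]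
  | succ N ih =>
    intro X b0
    rw [← Equiv.sum_comp Equiv.Perm.decomposeFin.symm, Fintype.sum_prod_type]
    have key : ∀ p : Fin (N + 1), (∑ e : Equiv.Perm (Fin N),
        (cnt l m r b0 (List.ofFn fun i => X (Equiv.Perm.decomposeFin.symm (p, e) i)) : ℝ)) =
        if l ≤ X p ∧ X p < m then N.factorial * Ev true ((cF X l m : ℝ) - 1) (cF X m r)
        else if m ≤ X p ∧ X p < r then
          N.factorial * ((if b0 then 1 else 0) + Ev false (cF X l m) ((cF X m r : ℝ) - 1))
        else N.factorial * Ev b0 (cF X l m) (cF X m r) := by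
      intro p
      obtain ⟨X', hX'⟩ : ∃ X' : Fin N → ℕ, ∀ j, X' j = X (Equiv.swap 0 p j.succ) :=
        ⟨fun j => X (Equiv.swap 0 p j.succ), fun _ => rfl⟩
      have e1 : ∀ e : Equiv.Perm (Fin N),
          (List.ofFn fun i => X (Equiv.Perm.decomposeFin.symm (p, e) i)) =
          X p :: List.ofFn fun i => X' (e i) := by
        intro e
        rw [List.ofFn_succ, Equiv.Perm.decomposeFin_symm_apply_zero]
        congr 1
        congr 1
        funext i
        rw [Equiv.Perm.decomposeFin_symm_apply_succ, hX']
      simp_rw [e1]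
      have s1 : cF X l m = (if l ≤ X p ∧ X p < m then 1 else 0) + cF X' l m := by
        rw [cF_swap X p l m]; unfold cF; simp_rw [hX']
      have s2 : cF X m r = (if m ≤ X p ∧ X p < r then 1 else 0) + cF X' m r := by
        rw [cF_swap X p m r]; unfold cF; simp_rw [hX']
      have ihp := ih X'
      by_cases c1 : l ≤ X p ∧ X p < m
      · rw [if_pos c1]
        have hc : ¬ (m ≤ X p ∧ X p < r) := by omega
        rw [if_pos c1] at s1
        rw [if_neg hc] at s2
        simp only [cnt]
        simp_rw [if_pos c1]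
        rw [ihp, s1, s2]
        push_cast
        ring_nf
      · rw [if_neg c1] at s1 ⊢
        by_cases c2 : m ≤ X p ∧ X p < r
        · rw [if_pos c2] at s2 ⊢
          simp only [cnt]
          simp_rw [if_neg c1, if_pos c2]
          push_cast
          rw [Finset.sum_add_distrib, ihp, s1, s2]
          simp only [Finset.sum_const, Finset.card_univ, Fintype.card_perm, Fintype.card_fin,
            nsmul_eq_mul]
          push_cast
          ring_nf
        · rw [if_neg c2] at s2 ⊢
          simp only [cnt]
          simp_rw [if_neg c1, if_neg c2]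
          rw [ihp, s1, s2]
          simp
    rw [Finset.sum_congr rfl (fun p _ => key p),
      sum_three (fun p => l ≤ X p ∧ X p < m) (fun p => m ≤ X p ∧ X p < r)
        (fun i h h' => by omega)]
    have c1 : (∑ p, if l ≤ X p ∧ X p < m then (1 : ℝ) else 0) = cF X l m := by
      unfold cF; push_cast; rfl
    have c2 : (∑ p, if m ≤ X p ∧ X p < r then (1 : ℝ) else 0) = cF X m r := by
      unfold cF; push_cast; rfl
    rw [c1, c2, Fintype.card_fin]
    have hr := Ev_rec b0 (cF X l m) (cF X m r) ((cF X l m : ℝ) - 1) ((cF X m r : ℝ) - 1)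
      (fun _ => rfl) (fun _ => rfl)
    rw [Nat.factorial_succ]
    push_cast
    linear_combination (N.factorial : ℝ) * hr

end Pool.Agent.TH49.Spl
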