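import Pool.Agent.H581R2.SplayDef

set_option autoImplicit false

/-! Rotation-based executions in which a rotation anywhere in the tree costs one, the offline
optimum with a free choice of the initial tree, and the shuffling of a request sequence inside
windows. -/

namespace Pool.Agent.TH49.Spl

open Pool.Agent.H581R2.Splay

/-- `RotN e T T'`: the tree `T'` arises from `T` by `e` rotations, performed anywhere. -/
inductive RotN : ℕ → Tr → Tr → Prop
  | refl (T : Tr) : RotN 0 T T
  | step (e s : ℕ) (T T' T'' : Tr) : Rot T T' s → RotN e T' T'' → RotN (e + 1) T T''

/-- `Exec T Y c`: there is an execution of cost `c` for the request sequence `Y` with initial tree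
`T`: a request `x` in the current tree `T` costs one plus the depth of `x` in `T`, and after it `e`
rotations, at a cost of one each, are performed anywhere in the tree. -/
inductive Exec : Tr → List ℕ → ℕ → Prop
  | nil (T : Tr) : Exec T [] 0
  | cons (T T' : Tr) (x : ℕ) (Y : List ℕ) (e c : ℕ) :
      RotN e T T' → Exec T' Y c → Exec T (x :: Y) (1 + e + dep x T + c)

/-- The least cost of an execution for `Y`, over all executions and over all initial search trees
with the list of keys `K`. -/
noncomputable def optAny (K Y : List ℕ) : ℕ := sInf {c : ℕ | ∃ T : Tr, keys T = K ∧ Exec T Y c}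

/-- The concatenation of the windows `B 0, B 1, …`. -/
def cat {J : ℕ} (B : Fin J → List ℕ) : List ℕ := (List.ofFn B).flatten

/-- Every window is rearranged: the entry number `i` of the new window `j` is the entry number
`σ j i` of the old one. -/
def shuf {J : ℕ} (B : Fin J → List ℕ) (σ : (j : Fin J) → Equiv.Perm (Fin (B j).length)) :
    Fin J → List ℕ :=
  fun j => List.ofFn fun i => (B j).get (σ j i)

end Pool.Agent.TH49.Spl
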