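import Pool.Agent.TH49.Spl.Avg

set_option autoImplicit false

/-! The median search tree of a window, and the scheme of splits that belongs to it. -/

namespace Pool.Agent.TH49.Spl

open Pool.Agent.H581R2.Splay Tr

/-- number of requests in `[l, r)` -/
def cB (B : List ℕ) (l r : ℕ) : ℕ := (B.map fun x => if l ≤ x ∧ x < r then 1 else 0).sum

/-- total depth in `O` of the requests in `[l, r)` -/
def dB (B : List ℕ) (O : Tr) (l r : ℕ) : ℕ :=
  (B.map fun x => if l ≤ x ∧ x < r then dep x O else 0).sum

/-- the averages over all splits of a scheme -/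
noncomputable def vB (B : List ℕ) : AS → ℕ → ℕ → ℝ
  | AS.leaf, _, _ => 0
  | AS.node m _ _ A C, l, r => Ev false (cB B l m) (cB B m r) + vB B A l m + vB B C m r

/-- all flags are down -/
def clean : AS → Prop
  | AS.leaf => True
  | AS.node _ b p A C => b = false ∧ p = false ∧ clean A ∧ clean C

theorem clean_inv (T : Tr) : ∀ (s : AS) (l r : ℕ), clean s → inv T s l r := by
  intro s
  induction s with
  | leaf => intro l r _; trivial
  | node m b p A C ihA ihC =>
    intro l r h
    obtain ⟨h1, h2, h3, h4⟩ := h
    exact ⟨by rw [h1]; simp, ihA l m h3, ihC m r h4⟩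

theorem clean_cred : ∀ s : AS, clean s → cred s = 0 := by
  intro s
  induction s with
  | leaf => intro _; rfl
  | node m b p A C ihA ihC =>
    intro h
    obtain ⟨h1, h2, h3, h4⟩ := h
    simp [cred, h2, ihA h3, ihC h4]

theorem cB_get (B : List ℕ) (l r : ℕ) : cF (fun i : Fin B.length => B.get i) l r = cB B l r := by
  unfold cF cB
  rw [← List.sum_ofFn]
  congr 1
  conv_rhs => rw [← List.ofFn_get B, List.map_ofFn]
  rfl

/-- the average of the value of a scheme over all orderings -/
theorem avg_val (B : List ℕ) : ∀ (s : AS) (l r : ℕ), ok s l r → clean s →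
    (∑ σ : Equiv.Perm (Fin B.length), (val s l r (List.ofFn fun i => B.get (σ i)) : ℝ)) =
      B.length.factorial * vB B s l r := by
  intro s
  induction s with
  | leaf => intro l r _ _; simp [val, vB]
  | node m b p A C ihA ihC =>
    intro l r hok hcl
    obtain ⟨h1, h2, h3, h4⟩ := hok
    obtain ⟨k1, k2, k3, k4⟩ := hcl
    subst k1
    simp only [val, vB]
    push_cast
    rw [Finset.sum_add_distrib, Finset.sum_add_distrib, ihA l m h3 k3, ihC m r h4 k4]
    have := avg_cnt l m r h1 B.length (fun i => B.get i) false
    rw [cB_get, cB_get] at this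
    rw [this]
    ring

theorem cB_split (B : List ℕ) {l m r : ℕ} (h1 : l ≤ m) (h2 : m ≤ r) :
    cB B l r = cB B l m + cB B m r := by
  unfold cB
  rw [← List.sum_map_add]
  congr 1
  refine List.map_congr_left fun x _ => ?_
  split_ifs <;> omega

theorem cB_pos {B : List ℕ} {l r x : ℕ} (hx : x ∈ B) (h1 : l ≤ x) (h2 : x < r) :
    0 < cB B l r := by
  unfold cB
  induction B with
  | nil => simp at hx
  | cons y B ih =>
    simp only [List.map_cons, List.sum_cons]
    rcases List.mem_cons.1 hx with rfl | hx
    · rw [if_pos ⟨h1, h2⟩]; omega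
    · have := ih hx; omega

theorem Ev_ge_right {a b : ℝ} (hb : 0 ≤ b) (h : b ≤ a) : b / 2 ≤ Ev false a b := by
  unfold Ev
  simp only [Bool.false_eq_true, if_false]
  rcases eq_or_lt_of_le hb with h0 | h0
  · rw [← h0]; simp
  · rw [div_le_div_iff₀ (by norm_num) (by linarith)]
    nlinarith

theorem Ev_ge_left {a b : ℝ} (ha : 0 ≤ a) (h : a ≤ b) : a / 2 ≤ Ev false a b := by
  unfold Ev
  simp only [Bool.false_eq_true, if_false]
  rcases eq_or_lt_of_le ha with h0 | h0
  · rw [← h0]; simp
  · rw [div_le_div_iff₀ (by norm_num) (by linarith)]
    nlinarith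

/-- The median tree. -/
theorem median (B : List ℕ) : ∀ (d l r : ℕ), r - l = d → l ≤ r → ∃ (s : AS) (O : Tr), ok s l r ∧
    clean s ∧ IsBST O ∧ (∀ k ∈ keys O, l ≤ k ∧ k < r) ∧
    (∀ x ∈ B, l ≤ x → x < r → x ∈ keys O) ∧ (dB B O l r : ℝ) ≤ 4 * vB B s l r := by
  intro d
  induction d using Nat.strong_induction_on with
  | _ d ih =>
    intro l r hd hlr
    by_cases hc : cB B l r = 0
    · refine ⟨AS.leaf, nil, trivial, trivial, by simp [IsBST, keys], by simp [keys], ?_, ?_⟩
      · intro x hx h1 h2
        have := cB_pos hx h1 h2
        omega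
      · have : dB B nil l r = 0 := by
          unfold dB
          simp [dep]
        rw [this]; simp [vB]
    · have hlt : l < r := by
        by_contra hcon
        have : l = r := by omega
        subst this
        apply hc
        unfold cB
        rw [List.sum_eq_zero]
        intro y hy
        rw [List.mem_map] at hy
        obtain ⟨x, -, rfl⟩ := hy
        rw [if_neg (by omega)]
      have hex : ∃ t : ℕ, l + t < r ∧ cB B l r ≤ 2 * cB B l (l + t + 1) := by
        refine ⟨r - 1 - l, by omega, ?_⟩
        have : l + (r - 1 - l) + 1 = r := by omega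
        rw [this]; omega
      classical
      obtain ⟨ht1, ht2⟩ := Nat.find_spec hex
      have hmin := fun t' (h : t' < Nat.find hex) => Nat.find_min hex h
      generalize Nat.find hex = t at ht1 ht2 hmin
      obtain ⟨z, hz⟩ : ∃ z, z = l + t := ⟨_, rfl⟩
      rw [← hz] at ht1 ht2
      have hw1 : 2 * cB B l z < cB B l r := by
        rcases Nat.eq_zero_or_pos t with h0 | h0
        · have : z = l := by omega
          rw [this]
          have : cB B l l = 0 := by
            unfold cB
            rw [List.sum_eq_zero]
            intro y hy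
            rw [List.mem_map] at hy
            obtain ⟨x, -, rfl⟩ := hy
            rw [if_neg (by omega)]
          omega
        · have h3 := hmin (t - 1) (by omega)
          have e : l + (t - 1) + 1 = z := by omega
          rw [e] at h3
          by_contra hcon
          exact h3 ⟨by omega, by omega⟩
      obtain ⟨s1, O1, a1, a2, a3, a4, a5, a6⟩ := ih (z - l) (by omega) l z rfl (by omega)
      obtain ⟨s2, O2, b1, b2, b3, b4, b5, b6⟩ := ih (r - (z + 1)) (by omega) (z + 1) r rfl (by omega)
      refine ⟨AS.node (z + 1) false false (AS.node z false false s1 AS.leaf) s2, node z O1 O2,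
        ⟨by omega, by omega, ⟨by omega, by omega, a1, trivial⟩, b1⟩,
        ⟨rfl, rfl, ⟨rfl, rfl, a2, trivial⟩, b2⟩, ?_, ?_, ?_, ?_⟩
      · simp only [IsBST, keys]
        rw [List.pairwise_append, List.pairwise_cons]
        refine ⟨a3, ⟨fun k hk => by have := b4 k hk; omega, b3⟩, fun k hk k' hk' => ?_⟩
        have := a4 k hk
        rw [List.mem_cons] at hk'
        rcases hk' with rfl | hk'
        · omega
        · have := b4 k' hk'; omega
      · intro k hk
        simp only [keys, List.mem_append, List.mem_cons] at hk
        rcases hk with hk | hk | hk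
        · have := a4 k hk; omega
        · omega
        · have := b4 k hk; omega
      · intro x hx h1 h2
        simp only [keys, List.mem_append, List.mem_cons]
        rcases lt_trichotomy x z with h | h | h
        · exact Or.inl (a5 x hx h1 h)
        · exact Or.inr (Or.inl h)
        · exact Or.inr (Or.inr (b5 x hx (by omega) h2))
      · have e0 : dB B (node z O1 O2) l r =
            dB B O1 l z + cB B l z + (dB B O2 (z + 1) r + cB B (z + 1) r) := by
          unfold dB cB
          rw [← List.sum_map_add, ← List.sum_map_add, ← List.sum_map_add]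
          congr 1
          refine List.map_congr_left fun x _ => ?_
          simp only [dep]
          split_ifs <;> omega
        have s1' := cB_split B (l := l) (m := z) (r := z + 1) (by omega) (by omega)
        have s2' := cB_split B (l := l) (m := z + 1) (r := r) (by omega) (by omega)
        have f1 : (cB B (z + 1) r : ℝ) ≤ cB B l (z + 1) := by
          have : cB B (z + 1) r ≤ cB B l (z + 1) := by omega
          exact_mod_cast this
        have g1 := Ev_ge_right (Nat.cast_nonneg (cB B (z + 1) r)) f1
        have n1 : (0 : ℝ) ≤ cB B l z := Nat.cast_nonneg _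
        have n2 : (0 : ℝ) ≤ cB B z (z + 1) := Nat.cast_nonneg _
        have n3 : (0 : ℝ) ≤ cB B (z + 1) r := Nat.cast_nonneg _
        have f2 : (cB B l z : ℝ) ≤ cB B z (z + 1) + cB B (z + 1) r := by
          have : cB B l z ≤ cB B z (z + 1) + cB B (z + 1) r := by omega
          exact_mod_cast this
        have g2 : (cB B l z : ℝ) + cB B (z + 1) r ≤
            4 * (Ev false (cB B l (z + 1)) (cB B (z + 1) r) +
              Ev false (cB B l z) (cB B z (z + 1))) := by
          rcases le_total (cB B l z : ℝ) (cB B z (z + 1)) with h | h
          · have := Ev_ge_left n1 h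
            linarith
          · have := Ev_ge_right n2 h
            linarith
        rw [e0]
        simp only [vB]
        push_cast
        linarith

end Pool.Agent.TH49.Spl
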