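import Pool.Agent.TH49.Spl.Win
import Pool.Agent.TH49.Spl.Med

set_option autoImplicit false

/-! Splay trees against the offline optimum on request sequences shuffled inside windows. -/

namespace Pool.Agent.TH49.Spl

open Pool.Agent.H581R2.Splay Tr

/-- Gibbs' inequality for the depths of distinct keys in a search tree. -/
theorem gibbs {O : Tr} (hO : IsBST O) (Q : Finset ℕ) (hQ : ∀ x ∈ Q, x ∈ keys O) :
    (Q.card : ℝ) * Real.logb 2 Q.card ≤ 2 * ∑ x ∈ Q, ((dep x O : ℝ) + 1) := by
  rcases Nat.eq_zero_or_pos Q.card with h0 | h0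
  · have : Q = ∅ := Finset.card_eq_zero.1 h0
    subst this; simp
  have hq : (0 : ℝ) < Q.card := by exact_mod_cast h0
  have hlog : (0 : ℝ) < Real.log 2 := Real.log_pos (by norm_num)
  have nodO : (keys O).Nodup := List.Pairwise.imp (fun {a b} h => by omega) hO
  have hkr : ∑ x ∈ Q, (1 / 4 : ℝ) ^ (dep x O + 1) ≤ 1 / 2 := by
    refine le_trans ?_ (kraft O hO)
    rw [← List.sum_toFinset _ nodO]
    refine Finset.sum_le_sum_of_subset_of_nonneg ?_ (fun _ _ _ => by positivity)
    intro a ha
    rw [List.mem_toFinset]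
    exact hQ a ha
  have h1 : ∀ x ∈ Q, Real.logb 2 Q.card - 2 * ((dep x O : ℝ) + 1) ≤
      (Q.card * (1 / 4 : ℝ) ^ (dep x O + 1) - 1) / Real.log 2 := by
    intro x _
    have e : Real.logb 2 (Q.card * (1 / 4 : ℝ) ^ (dep x O + 1)) =
        Real.logb 2 Q.card - 2 * ((dep x O : ℝ) + 1) := by
      rw [Real.logb_mul hq.ne' (by positivity), logb_quarter]; ring
    rw [← e, Real.logb]
    have := Real.log_le_sub_one_of_pos (x := Q.card * (1 / 4 : ℝ) ^ (dep x O + 1)) (by positivity)
    gcongr
  have h2 := Finset.sum_le_sum h1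
  rw [Finset.sum_sub_distrib, Finset.sum_const, nsmul_eq_mul, ← Finset.sum_div,
    Finset.sum_sub_distrib, ← Finset.mul_sum, ← Finset.mul_sum, Finset.sum_const, nsmul_eq_mul,
    mul_one] at h2
  have h3 : (Q.card * ∑ x ∈ Q, (1 / 4 : ℝ) ^ (dep x O + 1) - Q.card) / Real.log 2 ≤ 0 := by
    refine div_nonpos_of_nonpos_of_nonneg ?_ hlog.le
    nlinarith
  linarith

theorem sum_toFinset_le (f : ℕ → ℝ) (hf : ∀ x, 0 ≤ f x) (B : List ℕ) :
    ∑ x ∈ B.toFinset, f x ≤ (B.map f).sum := by
  induction B with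
  | nil => simp
  | cons y B ih =>
    rw [List.toFinset_cons, List.map_cons, List.sum_cons]
    by_cases h : y ∈ B.toFinset
    · rw [Finset.insert_eq_of_mem h]; have := hf y; linarith
    · rw [Finset.sum_insert h]; linarith

/-- the number of different keys of a window, times the logarithm of its length -/
theorem qlog {O : Tr} (hO : IsBST O) {B : List ℕ} (hB : ∀ x ∈ B, x ∈ keys O) {L : ℕ}
    (hL : 1 ≤ L) (hLB : L ≤ B.length) :
    (B.toFinset.card : ℝ) * Real.logb 2 L ≤
      4 * ((B.map fun x => (dep x O : ℝ)).sum + B.length) := by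
  have hS : (0 : ℝ) ≤ (B.map fun x => (dep x O : ℝ)).sum := by
    refine List.sum_nonneg ?_
    intro y hy
    rw [List.mem_map] at hy
    obtain ⟨x, -, rfl⟩ := hy
    positivity
  have hqm : (B.toFinset.card : ℝ) ≤ B.length := by exact_mod_cast List.toFinset_card_le B
  have hLm : (L : ℝ) ≤ B.length := by exact_mod_cast hLB
  have hLpos : (0 : ℝ) < L := by exact_mod_cast hL
  have hlogL : (0 : ℝ) ≤ Real.logb 2 L := Real.logb_nonneg (by norm_num) (by exact_mod_cast hL)
  have hm0 : (0 : ℝ) ≤ B.length := Nat.cast_nonneg _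
  set q : ℝ := (B.toFinset.card : ℝ) with hq
  have hq0 : 0 ≤ q := Nat.cast_nonneg _
  by_cases hc : (L : ℝ) ≤ q * q
  · have hqpos : 0 < q := by
      rcases eq_or_lt_of_le hq0 with h | h
      · rw [← h] at hc; simp at hc; linarith
      · exact h
    have h1 : Real.logb 2 L ≤ 2 * Real.logb 2 q := by
      have := logb_mono hLpos hc
      rw [Real.logb_mul hqpos.ne' hqpos.ne'] at this
      linarith
    have h2 := gibbs hO B.toFinset (fun x hx => hB x (List.mem_toFinset.1 hx))
    have h3 : ∑ x ∈ B.toFinset, ((dep x O : ℝ) + 1) ≤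
        (B.map fun x => (dep x O : ℝ)).sum + B.length := by
      have := sum_toFinset_le (fun x => (dep x O : ℝ)) (fun x => Nat.cast_nonneg _) B
      rw [Finset.sum_add_distrib, Finset.sum_const, nsmul_eq_mul, mul_one]
      linarith
    calc q * Real.logb 2 L ≤ q * (2 * Real.logb 2 q) := by
          exact mul_le_mul_of_nonneg_left h1 hq0
      _ = 2 * (q * Real.logb 2 q) := by ring
      _ ≤ 2 * (2 * ∑ x ∈ B.toFinset, ((dep x O : ℝ) + 1)) := by linarith
      _ ≤ 4 * ((B.map fun x => (dep x O : ℝ)).sum + B.length) := by linarith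
  · have hc' : q * q < L := not_le.1 hc
    have h1 : q ≤ Real.sqrt L := Real.le_sqrt_of_sq_le (by nlinarith)
    have hs : 0 < Real.sqrt L := Real.sqrt_pos.2 hLpos
    have hss : Real.sqrt L * Real.sqrt L = L := Real.mul_self_sqrt hLpos.le
    have h2 : Real.logb 2 L ≤ 2 * Real.sqrt L := by
      have e : Real.logb 2 L = 2 * Real.logb 2 (Real.sqrt L) := by
        conv_lhs => rw [← hss]
        rw [Real.logb_mul hs.ne' hs.ne']; ring
      have : Real.logb 2 (Real.sqrt L) ≤ Real.sqrt L := by
        rw [Real.logb_le_iff_le_rpow (by norm_num) hs]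
        have h3 : (1 : ℝ) + Real.sqrt L * Real.log 2 ≤ (2 : ℝ) ^ (Real.sqrt L) := by
          have := Real.add_one_le_exp (Real.sqrt L * Real.log 2)
          rw [Real.rpow_def_of_pos (by norm_num)]
          rw [mul_comm (Real.log 2)]
          linarith
        by_cases hbig : Real.sqrt L ≤ 3
        · have := Real.log_two_gt_d9
          nlinarith
        · push Not at hbig
          have h5 : (4 : ℝ) ≤ (2 : ℝ) ^ (Real.sqrt L / 2 + 1 / 2) := by
            calc (4 : ℝ) = (2 : ℝ) ^ (2 : ℝ) := by norm_num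
              _ ≤ _ := Real.rpow_le_rpow_of_exponent_le (by norm_num) (by linarith)
          have h6 : (1 : ℝ) + (Real.sqrt L / 2 - 1 / 2) * Real.log 2 ≤
              (2 : ℝ) ^ (Real.sqrt L / 2 - 1 / 2) := by
            have := Real.add_one_le_exp ((Real.sqrt L / 2 - 1 / 2) * Real.log 2)
            rw [Real.rpow_def_of_pos (by norm_num)]
            rw [mul_comm (Real.log 2)]
            linarith
          have h7 : (2 : ℝ) ^ (Real.sqrt L) =
              (2 : ℝ) ^ (Real.sqrt L / 2 + 1 / 2) * (2 : ℝ) ^ (Real.sqrt L / 2 - 1 / 2) := by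
            rw [← Real.rpow_add (by norm_num)]; ring_nf
          have := Real.log_two_gt_d9
          rw [h7]
          have h8 : (0 : ℝ) ≤ 1 + (Real.sqrt L / 2 - 1 / 2) * Real.log 2 := by nlinarith
          nlinarith
      linarith
    calc q * Real.logb 2 L ≤ Real.sqrt L * (2 * Real.sqrt L) := by
          exact mul_le_mul h1 h2 hlogL hs.le
      _ = 2 * L := by rw [← hss]; ring_nf; rw [Real.sq_sqrt]; positivity
      _ ≤ 4 * ((B.map fun x => (dep x O : ℝ)).sum + B.length) := by linarith

/-- all windows, indexed form -/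
theorem windowsF {n : ℕ} (hn : 1 ≤ n) : ∀ (J : ℕ) (Y : Fin J → List ℕ) (g : Fin J → ℝ) (S : Tr),
    IsBST S → (keys S).length = n → (∀ j, ∀ x ∈ Y j, x ∈ keys S) →
      (∀ j, ∃ O : Tr, IsBST O ∧ (∀ x ∈ Y j, x ∈ keys O) ∧
        ((Y j).map fun x => (8 + 6 * dep x O : ℝ)).sum +
          3 * (Y j).toFinset.card * Real.logb 2 (2 * n) ≤ g j) →
      (costSplay S (cat Y) : ℝ) + psi (wA n nil ∅) (runS S (cat Y)) ≤
        psi (wA n nil ∅) S + ∑ j, g j := by
  intro J
  induction J with
  | zero => intro Y g S _ _ _ _; simp [cat, costSplay, runS]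
  | succ J ih =>
    intro Y g S hb hlen hBS hO
    obtain ⟨O, hO1, hO2, hO3⟩ := hO 0
    have hB := hBS 0
    have h1 := window hn hO1 (Y 0) S ∅ hb hlen hB hO2 (by simp)
    rw [Finset.sdiff_empty] at h1
    have hk := runS_keys (Y 0) S hb hB
    have h2 := ih (fun i => Y i.succ) (fun i => g i.succ) (runS S (Y 0))
      (by unfold IsBST; rw [hk]; exact hb) (by rw [hk]; exact hlen)
      (fun j x hx => by rw [hk]; exact hBS j.succ x hx) (fun j => hO j.succ)
    have e : cat Y = Y 0 ++ cat (fun i : Fin J => Y i.succ) := by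
      simp [cat, List.ofFn_succ]
    rw [e, costSplay_append, runS_append, Fin.sum_univ_succ]
    push_cast
    rw [psi_empty n O nil, psi_empty n O nil] at h1
    linarith

theorem splay_windowsF {n : ℕ} (hn : 1 ≤ n) {J : ℕ} (Y : Fin J → List ℕ) (g : Fin J → ℝ) (S : Tr)
    (hb : IsBST S) (hlen : (keys S).length = n) (hBS : ∀ j, ∀ x ∈ Y j, x ∈ keys S)
    (hO : ∀ j, ∃ O : Tr, IsBST O ∧ (∀ x ∈ Y j, x ∈ keys O) ∧
        ((Y j).map fun x => (8 + 6 * dep x O : ℝ)).sum +
          3 * (Y j).toFinset.card * Real.logb 2 (2 * n) ≤ g j) :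
    (costSplay S (cat Y) : ℝ) ≤ ∑ j, g j + n * Real.logb 2 (2 * n) := by
  have h := windowsF hn J Y g S hb hlen hBS hO
  have hk := runS_keys (cat Y) S hb (by
    intro x hx
    unfold cat at hx
    rw [List.mem_flatten] at hx
    obtain ⟨B, h1, h2⟩ := hx
    rw [List.mem_ofFn] at h1
    obtain ⟨j, rfl⟩ := h1
    exact hBS j x h2)
  have htot := wA_total (A := ∅) hn (O := nil) (by simp [IsBST, keys]) hb hlen (by simp)
  have h1 : psi (wA n nil ∅) S ≤ 0 := by
    cases S with
    | nil => simp [psi]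
    | node a l r =>
      have hw := wA_pos hn nil ∅
      have q1 := wt_nonneg hw l
      have q2 := wt_nonneg hw r
      have q3 := hw a
      simp only [wt] at htot
      have := pot_nonpos hw l (by linarith)
      have := pot_nonpos hw r (by linarith)
      simp only [psi]; linarith
  have h2 : -((n : ℝ) * Real.logb 2 (2 * n)) ≤ psi (wA n nil ∅) (runS S (cat Y)) := by
    have hL : (0 : ℝ) ≤ Real.logb 2 (2 * n) := by
      refine Real.logb_nonneg (by norm_num) ?_
      have : (1 : ℝ) ≤ n := by exact_mod_cast hn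
      linarith
    have hβ : Real.logb 2 (1 / (2 * n : ℝ)) = -Real.logb 2 (2 * n) := by
      rw [one_div, Real.logb_inv]
    cases hS : runS S (cat Y) with
    | nil =>
      have : (0 : ℝ) ≤ (n : ℝ) * Real.logb 2 (2 * n) := by positivity
      simp only [psi]; linarith
    | node a l r =>
      have q1 := pot_ge (base_pos hn) (wA_base hn nil ∅) l
      have q2 := pot_ge (base_pos hn) (wA_base hn nil ∅) r
      rw [hβ] at q1 q2
      rw [hS] at hk
      have hlen' : (keys l).length + (keys r).length + 1 = n := by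
        rw [← hlen, ← hk]; simp only [keys, List.length_append, List.length_cons]; omega
      have hlen'' : ((keys l).length : ℝ) + (keys r).length + 1 = n := by exact_mod_cast hlen'
      simp only [psi]
      nlinarith
  linarith

theorem pi_sum {ι : Type} [Fintype ι] [DecidableEq ι] {β : ι → Type} [∀ i, Fintype (β i)] (j : ι)
    (f : β j → ℝ) : (∑ σ : (∀ i, β i), f (σ j)) * Fintype.card (β j) =
      Fintype.card (∀ i, β i) * ∑ τ, f τ := by
  have e1 : (∑ σ : (∀ i, β i), f (σ j)) =
      ∑ p : β j × ((i : {i // i ≠ j}) → β i), f p.1 :=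
    Fintype.sum_equiv (Equiv.piSplitAt j β) _ _ (fun σ => by simp [Equiv.piSplitAt])
  have e2 : Fintype.card (∀ i, β i) =
      Fintype.card (β j) * Fintype.card ((i : {i // i ≠ j}) → β i) := by
    rw [Fintype.card_congr (Equiv.piSplitAt j β), Fintype.card_prod]
  rw [e1, e2, Fintype.sum_prod_type]
  simp only [Finset.sum_const, Finset.card_univ, nsmul_eq_mul]
  rw [← Finset.mul_sum]
  push_cast
  ring

theorem shuf_perm {J : ℕ} (B : Fin J → List ℕ)
    (σ : (j : Fin J) → Equiv.Perm (Fin (B j).length)) (j : Fin J) :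
    (shuf B σ j).Perm (B j) := by
  unfold shuf
  have h := Equiv.Perm.ofFn_comp_perm (σ j) (fun i => (B j).get i)
  rw [List.ofFn_get] at h
  exact h

/-- The comparison theorem. -/
theorem shuffled {k L J : ℕ} (hk : 1 ≤ k) {T : Tr} (hT : IsBST T) (h1 : 1 ≤ (keys T).length)
    (hn : (keys T).length ≤ L ^ k) (B : Fin J → List ℕ) (hB : ∀ j, ∀ x ∈ B j, x ∈ keys T)
    (hL : ∀ j, L ≤ (B j).length) (σ₀ : (j : Fin J) → Equiv.Perm (Fin (B j).length)) :
    (costSplay T (cat (shuf B σ₀)) : ℝ) ≤
      207 * k * ((∑ σ : (j : Fin J) → Equiv.Perm (Fin (B j).length),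
        (optAny (keys T) (cat (shuf B σ)) : ℝ)) /
          Fintype.card ((j : Fin J) → Equiv.Perm (Fin (B j).length))) +
      (keys T).length * Real.logb 2 (2 * (keys T).length) := by
  obtain ⟨R, hR⟩ : ∃ R, ∀ x ∈ keys T, x < R := ⟨(keys T).toFinset.sup id + 1, fun x hx =>
    Nat.lt_succ_of_le (Finset.le_sup (f := id) (List.mem_toFinset.2 hx))⟩
  have hL1 : 1 ≤ L := by
    by_contra hcon
    have : L = 0 := by omega
    subst this
    rw [zero_pow (by omega)] at hn
    omega
  choose s O a1 a2 a3 a4 a5 a6 using fun j => median (B j) R 0 R (by omega) (by omega)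
  have hBO : ∀ j, ∀ x ∈ B j, x ∈ keys (O j) := fun j x hx =>
    a5 j x hx (by omega) (hR x (hB j x hx))
  -- static costs
  have hS : ∀ j, ((B j).map fun x => (dep x (O j) : ℝ)).sum = dB (B j) (O j) 0 R := by
    intro j
    unfold dB
    push_cast
    rw [List.map_map]
    congr 1
    refine List.map_congr_left fun x hx => ?_
    simp only [Function.comp]
    rw [if_pos ⟨by omega, hR x (hB j x hx)⟩]
  set S : Fin J → ℝ := fun j => ((B j).map fun x => (dep x (O j) : ℝ)).sum with hSdef
  have hS0 : ∀ j, 0 ≤ S j := by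
    intro j
    simp only [hSdef]
    rw [hS j]
    positivity
  have hnpos : (0 : ℝ) < (keys T).length := by exact_mod_cast h1
  have hlogn : Real.logb 2 (2 * (keys T).length) ≤ 1 + k * Real.logb 2 L := by
    rw [Real.logb_mul (by norm_num) hnpos.ne', Real.logb_self_eq_one (by norm_num)]
    have : Real.logb 2 ((keys T).length : ℝ) ≤ Real.logb 2 ((L : ℝ) ^ k) :=
      logb_mono hnpos (by exact_mod_cast hn)
    rw [Real.logb_pow] at this
    linarith
  have hk' : (1 : ℝ) ≤ k := by exact_mod_cast hk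
  -- the upper bound
  have up := splay_windowsF h1 (shuf B σ₀) (fun j => 23 * k * (S j + (B j).length)) T hT rfl
    (fun j x hx => hB j x ((shuf_perm B σ₀ j).mem_iff.1 hx)) (by
      intro j
      have hp := shuf_perm B σ₀ j
      refine ⟨O j, a3 j, fun x hx => hBO j x (hp.mem_iff.1 hx), ?_⟩
      have e1 : ((shuf B σ₀ j).map fun x => (8 + 6 * dep x (O j) : ℝ)).sum =
          8 * (B j).length + 6 * S j := by
        rw [(hp.map _).sum_eq]
        simp only [hSdef]
        rw [List.sum_map_add, List.sum_map_mul_left, List.map_const', List.sum_replicate,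
          nsmul_eq_mul]
        ring
      have e2 : (shuf B σ₀ j).toFinset = (B j).toFinset := List.toFinset_eq_of_perm _ _ hp
      rw [e1, e2]
      have hq := qlog (a3 j) (hBO j) hL1 (hL j)
      have hqm : ((B j).toFinset.card : ℝ) ≤ (B j).length := by
        exact_mod_cast List.toFinset_card_le (B j)
      have hq0 : (0 : ℝ) ≤ (B j).toFinset.card := Nat.cast_nonneg _
      have hm0 : (0 : ℝ) ≤ (B j).length := Nat.cast_nonneg _
      have s0 := hS0 j
      have h3 : ((B j).toFinset.card : ℝ) * Real.logb 2 (2 * (keys T).length) ≤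
          (B j).length + k * (4 * (S j + (B j).length)) := by
        calc ((B j).toFinset.card : ℝ) * Real.logb 2 (2 * (keys T).length)
            ≤ (B j).toFinset.card * (1 + k * Real.logb 2 L) :=
              mul_le_mul_of_nonneg_left hlogn hq0
          _ = (B j).toFinset.card + k * ((B j).toFinset.card * Real.logb 2 L) := by ring
          _ ≤ (B j).length + k * (4 * (S j + (B j).length)) := by
              have := mul_le_mul_of_nonneg_left hq (show (0 : ℝ) ≤ k by linarith)
              linarith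
      have h4 : 11 * ((B j).length : ℝ) + 6 * S j ≤ 11 * (k * (S j + (B j).length)) := by
        have : (S j + (B j).length) ≤ k * (S j + (B j).length) := by nlinarith
        linarith
      linarith)
  -- the lower bound
  set Ω := (j : Fin J) → Equiv.Perm (Fin (B j).length) with hΩ
  have hcard : (0 : ℝ) < Fintype.card Ω := by
    exact_mod_cast Fintype.card_pos
  have low : ∀ σ : Ω, ∑ j, (((B j).length : ℝ) +
      4 * (val (s j) 0 R (List.ofFn fun i => (B j).get (σ j i)) : ℝ)) / 9 ≤
      (optAny (keys T) (cat (shuf B σ)) : ℝ) := by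
    intro σ
    refine optAny_ge (T := T) rfl ?_
    intro T' c hT' hE
    refine exec_windows (K := keys T) J (shuf B σ) _ ?_ T' c hT' hE
    intro j T'' c'' hT'' hE''
    have hb'' : IsBST T'' := by unfold IsBST; rw [hT'']; exact hT
    have g1 := exec_length hE''
    have g2 := exec_val hE'' hb'' (fun x hx => by
      rw [hT'']; exact hB j x ((shuf_perm B σ j).mem_iff.1 hx)) (s j) 0 R (a1 j)
      (clean_inv T'' (s j) 0 R (a2 j))
    rw [clean_cred (s j) (a2 j)] at g2
    rw [(shuf_perm B σ j).length_eq] at g1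
    have g1' : ((B j).length : ℝ) ≤ c'' := by exact_mod_cast g1
    have g2' : (val (s j) 0 R (List.ofFn fun i => (B j).get (σ j i)) : ℝ) ≤ 2 * c'' := by
      have : val (s j) 0 R (List.ofFn fun i => (B j).get (σ j i)) ≤ 2 * c'' + 0 := g2
      have h' : val (s j) 0 R (List.ofFn fun i => (B j).get (σ j i)) ≤ 2 * c'' := by omega
      exact_mod_cast h'
    linarith
  have avg : ∑ σ : Ω, ∑ j, (((B j).length : ℝ) +
      4 * (val (s j) 0 R (List.ofFn fun i => (B j).get (σ j i)) : ℝ)) / 9 =
      Fintype.card Ω * ∑ j, (((B j).length : ℝ) + 4 * vB (B j) (s j) 0 R) / 9 := by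
    rw [Finset.sum_comm, Finset.mul_sum]
    refine Finset.sum_congr rfl fun j _ => ?_
    have e := pi_sum (β := fun j => Equiv.Perm (Fin (B j).length)) j
      (fun τ => (val (s j) 0 R (List.ofFn fun i => (B j).get (τ i)) : ℝ))
    rw [avg_val (B j) (s j) 0 R (a1 j) (a2 j), Fintype.card_perm, Fintype.card_fin] at e
    have hf : ((B j).length.factorial : ℝ) ≠ 0 := by positivity
    have e' : (∑ σ : Ω, (val (s j) 0 R (List.ofFn fun i => (B j).get (σ j i)) : ℝ)) =
        Fintype.card Ω * vB (B j) (s j) 0 R := by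
      have : (∑ σ : Ω, (val (s j) 0 R (List.ofFn fun i => (B j).get (σ j i)) : ℝ)) *
          ((B j).length.factorial : ℝ) =
          (Fintype.card Ω * vB (B j) (s j) 0 R) * ((B j).length.factorial : ℝ) := by
        rw [e]; ring
      exact mul_right_cancel₀ hf this
    rw [← Finset.sum_div, Finset.sum_add_distrib, ← Finset.mul_sum, e', Finset.sum_const,
      Finset.card_univ, nsmul_eq_mul]
    ring
  have low2 : Fintype.card Ω * ∑ j, (((B j).length : ℝ) + 4 * vB (B j) (s j) 0 R) / 9 ≤
      ∑ σ : Ω, (optAny (keys T) (cat (shuf B σ)) : ℝ) := by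
    rw [← avg]
    exact Finset.sum_le_sum fun σ _ => low σ
  have low3 : (∑ j, (S j + (B j).length)) / 9 ≤
      (∑ σ : Ω, (optAny (keys T) (cat (shuf B σ)) : ℝ)) / Fintype.card Ω := by
    rw [le_div_iff₀ hcard, mul_comm]
    refine le_trans (mul_le_mul_of_nonneg_left ?_ hcard.le) low2
    rw [Finset.sum_div]
    refine Finset.sum_le_sum fun j _ => ?_
    have := a6 j
    have h' : S j ≤ 4 * vB (B j) (s j) 0 R := by
      simp only [hSdef]; rw [hS j]; exact this
    linarith
  refine le_trans up ?_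
  rw [← Finset.mul_sum]
  have h5 : 23 * (k : ℝ) * ∑ j, (S j + (B j).length) =
      207 * k * ((∑ j, (S j + (B j).length)) / 9) := by ring
  have h6 : 207 * (k : ℝ) * ((∑ j, (S j + (B j).length)) / 9) ≤
      207 * k * ((∑ σ : Ω, (optAny (keys T) (cat (shuf B σ)) : ℝ)) / Fintype.card Ω) :=
    mul_le_mul_of_nonneg_left low3 (by positivity)
  linarith

end Pool.Agent.TH49.Spl
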