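import Pool.Agent.TH49.Spl.Defs

set_option autoImplicit false

/-! The interleave lower bound for executions in which rotations may take place anywhere. -/

namespace Pool.Agent.TH49.Spl

open Pool.Agent.H581R2.Splay Tr

theorem bstn {a : ℕ} {l r : Tr} (h : IsBST (node a l r)) :
    IsBST l ∧ IsBST r ∧ (∀ k ∈ keys l, k < a) ∧ (∀ k ∈ keys r, a < k) := by
  simp only [IsBST, keys] at h
  rw [List.pairwise_append, List.pairwise_cons] at h
  obtain ⟨hl, ⟨har, hr⟩, hlr⟩ := h
  exact ⟨hl, hr, fun k hk => hlr k hk a (by simp), har⟩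

/-- the key of the interval `[l, r)` nearest the root -/
def lca (l r : ℕ) : Tr → Option ℕ
  | nil => none
  | node a L R => if a < l then lca l r R else if r ≤ a then lca l r L else some a

/-- the keys on the search path -/
def path (x : ℕ) : Tr → List ℕ
  | nil => []
  | node a L R => a :: (if x = a then [] else if x < a then path x L else path x R)

theorem path_length (x : ℕ) (T : Tr) : (path x T).length ≤ dep x T + 1 := by
  induction T with
  | nil => simp [path, dep]
  | node a L R ihL ihR =>
    simp only [path, dep, List.length_cons]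
    split_ifs <;> simp <;> omega

theorem lca_spec {l r z : ℕ} {T : Tr} (h : lca l r T = some z) : z ∈ keys T ∧ l ≤ z ∧ z < r := by
  induction T with
  | nil => simp [lca] at h
  | node a L R ihL ihR =>
    simp only [lca] at h
    simp only [keys, List.mem_append, List.mem_cons]
    split_ifs at h with h1 h2
    · have := ihR h; tauto
    · have := ihL h; tauto
    · simp only [Option.some.injEq] at h
      subst h
      exact ⟨by tauto, by omega, by omega⟩

theorem lca_path {l r x : ℕ} {T : Tr} (hb : IsBST T) (hx : x ∈ keys T) (h1 : l ≤ x)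
    (h2 : x < r) : ∃ z, lca l r T = some z ∧ z ∈ path x T := by
  induction T with
  | nil => simp [keys] at hx
  | node a L R ihL ihR =>
    obtain ⟨bL, bR, kL, kR⟩ := bstn hb
    simp only [keys, List.mem_append, List.mem_cons] at hx
    simp only [lca, path]
    split_ifs with c1 c2 c3 c4 c5 c6
    · omega
    · omega
    · have : x ∈ keys R := by
        rcases hx with hx | hx | hx
        · have := kL x hx; omega
        · omega
        · exact hx
      obtain ⟨z, z1, z2⟩ := ihR bR this
      exact ⟨z, z1, by simp [z2]⟩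
    · omega
    · have : x ∈ keys L := by
        rcases hx with hx | hx | hx
        · exact hx
        · omega
        · have := kR x hx; omega
      obtain ⟨z, z1, z2⟩ := ihL bL this
      exact ⟨z, z1, by simp [z2]⟩
    · omega
    · exact ⟨a, rfl, by simp⟩
    · exact ⟨a, rfl, by simp⟩
    · exact ⟨a, rfl, by simp⟩

theorem lca_sub {l r l' r' z : ℕ} {T : Tr} (h : lca l r T = some z) (hl : l ≤ l') (hr : r' ≤ r)
    (h1 : l' ≤ z) (h2 : z < r') (hb : IsBST T) : lca l' r' T = some z := by
  induction T with
  | nil => simp [lca] at h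
  | node a L R ihL ihR =>
    obtain ⟨bL, bR, kL, kR⟩ := bstn hb
    simp only [lca] at h ⊢
    split_ifs at h with c1 c2
    · rw [if_pos (by omega)]; exact ihR h bR
    · have hz := (lca_spec h).1
      have := kL z hz
      rw [if_neg (by omega), if_pos (by omega)]; exact ihL h bL
    · simp only [Option.some.injEq] at h
      subst h
      rw [if_neg (by omega), if_neg (by omega)]

theorem rot_keys {T T' : Tr} {s : ℕ} (h : Rot T T' s) : keys T' = keys T := by
  induction h with
  | right a b A B C => simp [keys]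
  | left a b A B C => simp [keys]
  | inl a L L' R s _ ih => simp [keys, ih]
  | inr a L R R' s _ ih => simp [keys, ih]

theorem rot_lca {T T' : Tr} {s : ℕ} (h : Rot T T' s) : IsBST T → ∃ a b : ℕ, ∀ l r z : ℕ,
    z ≠ a → z ≠ b → (lca l r T = some z ↔ lca l r T' = some z) := by
  induction h with
  | right a b A B C =>
    intro hb
    obtain ⟨g1, g2, g3, g4⟩ := bstn hb
    have hba : b < a := g3 b (by simp [keys])
    refine ⟨a, b, fun l r z h1 h2 => ?_⟩
    simp only [lca]
    split_ifs <;> first | rfl | omega | (simp only [Option.some.injEq]; omega) |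
      (constructor <;> intro hh <;> simp only [Option.some.injEq] at hh <;> omega)
  | left a b A B C =>
    intro hb
    obtain ⟨g1, g2, g3, g4⟩ := bstn hb
    have hba : b < a := g4 a (by simp [keys])
    refine ⟨a, b, fun l r z h1 h2 => ?_⟩
    simp only [lca]
    split_ifs <;> first | rfl | omega | (simp only [Option.some.injEq]; omega) |
      (constructor <;> intro hh <;> simp only [Option.some.injEq] at hh <;> omega)
  | inl c L L' R s _ ih =>
    intro hb
    obtain ⟨a, b, hab⟩ := ih (bstn hb).1
    refine ⟨a, b, fun l r z h1 h2 => ?_⟩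
    simp only [lca]
    split_ifs
    · rfl
    · exact hab l r z h1 h2
    · rfl
  | inr c L R R' s _ ih =>
    intro hb
    obtain ⟨a, b, hab⟩ := ih (bstn hb).2.1
    refine ⟨a, b, fun l r z h1 h2 => ?_⟩
    simp only [lca]
    split_ifs
    · exact hab l r z h1 h2
    · rfl
    · rfl

/-- the transition point of the split `m` of the interval `[l, r)` -/
def tp (l m r : ℕ) (T : Tr) : Option ℕ :=
  match lca l r T with
  | none => none
  | some a => if a < m then lca m r T else lca l m T

/-- the key of `[l, r)` nearest the root lies to the left of `m` -/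
def LTop (l m r : ℕ) (T : Tr) : Prop := ∃ a, lca l r T = some a ∧ a < m

theorem ltop_rot {T T' : Tr} {s : ℕ} (h : Rot T T' s) (hb : IsBST T) {a b : ℕ}
    (hab : ∀ l r z : ℕ, z ≠ a → z ≠ b → (lca l r T = some z ↔ lca l r T' = some z))
    {l m r : ℕ} (hlm : l ≤ m) (hL : LTop l m r T) (h1 : tp l m r T ≠ some a)
    (h2 : tp l m r T ≠ some b) : LTop l m r T' := by
  obtain ⟨a0, e0, e1⟩ := hL
  have hk := rot_keys h
  have hb' : IsBST T' := by unfold IsBST; rw [hk]; exact hb
  obtain ⟨k1, k2, k3⟩ := lca_spec e0
  obtain ⟨a1, f0, -⟩ := lca_path hb' (x := a0) (by rw [hk]; exact k1) k2 k3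
  by_contra hcon
  have hm : m ≤ a1 := by
    by_contra hlt
    exact hcon ⟨a1, f0, by omega⟩
  obtain ⟨j1, j2, j3⟩ := lca_spec f0
  obtain ⟨z, z1, -⟩ := lca_path hb (l := m) (r := r) (x := a1) (by rw [← hk]; exact j1) hm j3
  have htp : tp l m r T = some z := by simp only [tp, e0]; rw [if_pos e1, z1]
  rw [htp] at h1 h2
  have za : z ≠ a := fun h => h1 (by rw [h])
  have zb : z ≠ b := fun h => h2 (by rw [h])
  have z2 := (hab m r z za zb).1 z1
  have z3 := lca_sub f0 hlm (le_refl r) hm j3 hb'
  have : z = a1 := by rw [z2] at z3; exact Option.some.inj z3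
  subst this
  have := (hab l r z za zb).2 f0
  rw [this] at e0
  have := Option.some.inj e0
  omega

/-- A hierarchical scheme of splits, with two flags at every split. -/
inductive AS : Type
  | leaf : AS
  | node (m : ℕ) (b p : Bool) (A B : AS) : AS

/-- number of changes from the left part `[l, m)` to the right part `[m, r)` -/
def cnt (l m r : ℕ) : Bool → List ℕ → ℕ
  | _, [] => 0
  | b, x :: X =>
      if l ≤ x ∧ x < m then cnt l m r true X
      else if m ≤ x ∧ x < r then (if b then 1 else 0) + cnt l m r false X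
      else cnt l m r b X

def val : AS → ℕ → ℕ → List ℕ → ℕ
  | AS.leaf, _, _, _ => 0
  | AS.node m b _ A B, l, r, Y => cnt l m r b Y + val A l m Y + val B m r Y

def cred : AS → ℕ
  | AS.leaf => 0
  | AS.node _ _ p A B => (if p then 1 else 0) + cred A + cred B

def inv (T : Tr) : AS → ℕ → ℕ → Prop
  | AS.leaf, _, _ => True
  | AS.node m b p A B, l, r => (b = true → p = false → LTop l m r T) ∧ inv T A l m ∧ inv T B m r

def ok : AS → ℕ → ℕ → Prop
  | AS.leaf, _, _ => True
  | AS.node m _ _ A B, l, r => l ≤ m ∧ m ≤ r ∧ ok A l m ∧ ok B m r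

open Classical in
noncomputable def tch (D : Finset ℕ) (T : Tr) : AS → ℕ → ℕ → ℕ
  | AS.leaf, _, _ => 0
  | AS.node m _ _ A B, l, r => (if ∃ z ∈ D, tp l m r T = some z then 1 else 0) +
      tch D T A l m + tch D T B m r

open Classical in
/-- different splits have different transition points -/
theorem tch_le (D : Finset ℕ) {T : Tr} (hb : IsBST T) : ∀ (s : AS) (l r : ℕ), ok s l r →
    tch D T s l r ≤ (D.filter fun k => l ≤ k ∧ k < r ∧ lca l r T ≠ some k).card := by
  intro s
  induction s with
  | leaf => intro l r _; simp [tch]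
  | node m b p A B ihA ihB =>
    intro l r hok
    obtain ⟨h1, h2, h3, h4⟩ := hok
    have iA := ihA l m h3
    have iB := ihB m r h4
    simp only [tch]
    -- the two parts are disjoint
    set EA := D.filter fun k => l ≤ k ∧ k < m ∧ lca l m T ≠ some k with hEA
    set EB := D.filter fun k => m ≤ k ∧ k < r ∧ lca m r T ≠ some k with hEB
    set E := D.filter fun k => l ≤ k ∧ k < r ∧ lca l r T ≠ some k with hE
    have hdis : Disjoint EA EB := by
      rw [Finset.disjoint_left]
      intro k hk1 hk2
      simp only [hEA, hEB, Finset.mem_filter] at hk1 hk2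
      omega
    have hsubA : EA ⊆ E := by
      intro k hk
      simp only [hEA, hE, Finset.mem_filter] at hk ⊢
      refine ⟨hk.1, hk.2.1, by omega, fun hcon => ?_⟩
      exact hk.2.2.2 (lca_sub hcon (le_refl l) h2 hk.2.1 hk.2.2.1 hb)
    have hsubB : EB ⊆ E := by
      intro k hk
      simp only [hEB, hE, Finset.mem_filter] at hk ⊢
      refine ⟨hk.1, by omega, hk.2.2.1, fun hcon => ?_⟩
      exact hk.2.2.2 (lca_sub hcon h1 (le_refl r) hk.2.1 hk.2.2.1 hb)
    have hun : (EA ∪ EB).card = EA.card + EB.card := Finset.card_union_of_disjoint hdis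
    by_cases hz : ∃ z ∈ D, tp l m r T = some z
    · rw [if_pos hz]
      obtain ⟨z, zD, hz⟩ := hz
      have hzE : z ∈ E ∧ z ∉ EA ∪ EB := by
        simp only [tp] at hz
        cases e : lca l r T with
        | none => rw [e] at hz; simp at hz
        | some a =>
          rw [e] at hz
          simp only at hz
          split_ifs at hz with c
          · obtain ⟨q1, q2, q3⟩ := lca_spec hz
            simp only [hE, hEA, hEB, Finset.mem_filter, Finset.mem_union]
            refine ⟨⟨zD, by omega, by omega, ?_⟩, ?_⟩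
            · rw [e]; intro hh; have := Option.some.inj hh; omega
            · rintro (⟨-, -, hh, -⟩ | ⟨-, -, -, hh⟩)
              · omega
              · exact hh hz
          · obtain ⟨q1, q2, q3⟩ := lca_spec hz
            simp only [hE, hEA, hEB, Finset.mem_filter, Finset.mem_union]
            refine ⟨⟨zD, by omega, by omega, ?_⟩, ?_⟩
            · rw [e]; intro hh; have := Option.some.inj hh; omega
            · rintro (⟨-, -, -, hh⟩ | ⟨-, hh, -, -⟩)
              · exact hh hz
              · omega
      have : (insert z (EA ∪ EB)).card ≤ E.card := by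
        refine Finset.card_le_card ?_
        intro k hk
        rw [Finset.mem_insert, Finset.mem_union] at hk
        rcases hk with rfl | hk | hk
        · exact hzE.1
        · exact hsubA hk
        · exact hsubB hk
      rw [Finset.card_insert_of_notMem hzE.2] at this
      omega
    · rw [if_neg hz]
      have : (EA ∪ EB).card ≤ E.card := Finset.card_le_card (Finset.union_subset hsubA hsubB)
      omega

open Classical in
/-- a search -/
theorem step_search {T : Tr} (hb : IsBST T) {x : ℕ} (hx : x ∈ keys T) : ∀ (s : AS) (l r : ℕ),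
    ok s l r → inv T s l r → ∃ s' : AS, ok s' l r ∧ inv T s' l r ∧
      ∀ Y : List ℕ, val s l r (x :: Y) + cred s' ≤
        val s' l r Y + cred s + tch (path x T).toFinset T s l r := by
  intro s
  induction s with
  | leaf => intro l r _ _; exact ⟨AS.leaf, trivial, trivial, fun Y => by simp [val, cred, tch]⟩
  | node m b p A B ihA ihB =>
    intro l r hok hinv
    obtain ⟨h1, h2, h3, h4⟩ := hok
    obtain ⟨i1, i2, i3⟩ := hinv
    obtain ⟨A', a1, a2, a3⟩ := ihA l m h3 i2
    obtain ⟨B', b1, b2, b3⟩ := ihB m r h4 i3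
    by_cases ht : ∃ z ∈ (path x T).toFinset, tp l m r T = some z
    · by_cases c1 : l ≤ x ∧ x < m
      · refine ⟨AS.node m true true A' B', ⟨h1, h2, a1, b1⟩, ⟨by simp, a2, b2⟩, fun Y => ?_⟩
        have := a3 Y; have := b3 Y
        simp only [val, cred, tch, cnt]
        rw [if_pos c1, if_pos ht]
        simp only [if_true]
        omega
      · by_cases c2 : m ≤ x ∧ x < r
        · refine ⟨AS.node m false false A' B', ⟨h1, h2, a1, b1⟩, ⟨by simp, a2, b2⟩, fun Y => ?_⟩
          have := a3 Y; have := b3 Y
          simp only [val, cred, tch, cnt]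
          rw [if_neg c1, if_pos c2, if_pos ht]
          have : (if b = true then 1 else 0) ≤ 1 := by split_ifs <;> simp
          simp only [Bool.false_eq_true, if_false]
          omega
        · refine ⟨AS.node m b true A' B', ⟨h1, h2, a1, b1⟩, ⟨by simp, a2, b2⟩, fun Y => ?_⟩
          have := a3 Y; have := b3 Y
          simp only [val, cred, tch, cnt]
          rw [if_neg c1, if_neg c2, if_pos ht]
          simp only [if_true]
          omega
    · by_cases c1 : l ≤ x ∧ x < m
      · refine ⟨AS.node m true false A' B', ⟨h1, h2, a1, b1⟩, ⟨fun _ _ => ?_, a2, b2⟩, fun Y => ?_⟩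
        · obtain ⟨a0, e0, e1⟩ := lca_path hb (l := l) (r := r) hx c1.1 (by omega)
          refine ⟨a0, e0, ?_⟩
          by_contra hlt
          obtain ⟨z, z1, z2⟩ := lca_path hb (l := l) (r := m) hx c1.1 c1.2
          refine ht ⟨z, by rw [List.mem_toFinset]; exact z2, ?_⟩
          simp only [tp, e0]
          rw [if_neg hlt, z1]
        · have := a3 Y; have := b3 Y
          simp only [val, cred, tch, cnt]
          rw [if_pos c1, if_neg ht]
          simp only [Bool.false_eq_true, if_false]
          omega
      · by_cases c2 : m ≤ x ∧ x < r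
        · have hbp : (if b = true then 1 else 0) ≤ (if p = true then 1 else 0) := by
            cases b with
            | false => simp
            | true =>
              cases p with
              | true => simp
              | false =>
                exfalso
                obtain ⟨a0, e0, e1⟩ := i1 rfl rfl
                obtain ⟨z, z1, z2⟩ := lca_path hb (l := m) (r := r) hx c2.1 c2.2
                refine ht ⟨z, by rw [List.mem_toFinset]; exact z2, ?_⟩
                simp only [tp, e0]
                rw [if_pos e1, z1]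
          refine ⟨AS.node m false false A' B', ⟨h1, h2, a1, b1⟩, ⟨by simp, a2, b2⟩, fun Y => ?_⟩
          have := a3 Y; have := b3 Y
          simp only [val, cred, tch, cnt]
          rw [if_neg c1, if_pos c2, if_neg ht]
          simp only [Bool.false_eq_true, if_false]
          omega
        · refine ⟨AS.node m b p A' B', ⟨h1, h2, a1, b1⟩, ⟨i1, a2, b2⟩, fun Y => ?_⟩
          have := a3 Y; have := b3 Y
          simp only [val, cred, tch, cnt]
          rw [if_neg c1, if_neg c2, if_neg ht]
          omega

open Classical in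
/-- a rotation -/
theorem step_rot_aux {T T' : Tr} {s0 : ℕ} (h : Rot T T' s0) (hb : IsBST T) {a b : ℕ}
    (hab : ∀ l r z : ℕ, z ≠ a → z ≠ b → (lca l r T = some z ↔ lca l r T' = some z)) :
    ∀ (s : AS) (l r : ℕ), ok s l r → inv T s l r → ∃ s' : AS, ok s' l r ∧ inv T' s' l r ∧
      (∀ Y : List ℕ, val s' l r Y = val s l r Y) ∧ cred s' ≤ cred s + tch {a, b} T s l r := by
  intro s
  induction s with
  | leaf => intro l r _ _; exact ⟨AS.leaf, trivial, trivial, fun _ => rfl, by simp [cred]⟩
  | node m b0 p A B ihA ihB =>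
    intro l r hok hinv
    obtain ⟨h1, h2, h3, h4⟩ := hok
    obtain ⟨i1, i2, i3⟩ := hinv
    obtain ⟨A', a1, a2, a3, a4⟩ := ihA l m h3 i2
    obtain ⟨B', b1, b2, b3, b4⟩ := ihB m r h4 i3
    by_cases ht : ∃ z ∈ ({a, b} : Finset ℕ), tp l m r T = some z
    · refine ⟨AS.node m b0 true A' B', ⟨h1, h2, a1, b1⟩, ⟨by simp, a2, b2⟩, fun Y => ?_, ?_⟩
      · simp only [val, a3, b3]
      · simp only [cred, tch]
        rw [if_pos ht]
        simp only [if_true]
        omega
    · refine ⟨AS.node m b0 p A' B', ⟨h1, h2, a1, b1⟩, ⟨fun e1 e2 => ?_, a2, b2⟩, fun Y => ?_, ?_⟩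
      · refine ltop_rot h hb hab h1 (i1 e1 e2) (fun hh => ht ⟨a, by simp, hh⟩)
          (fun hh => ht ⟨b, by simp, hh⟩)
      · simp only [val, a3, b3]
      · simp only [cred, tch]
        rw [if_neg ht]
        omega

theorem rotN_keys {e : ℕ} {T T' : Tr} (h : RotN e T T') : keys T' = keys T := by
  induction h with
  | refl T => rfl
  | step e s T T' T'' h1 _ ih => rw [ih, rot_keys h1]

theorem step_rotN {e : ℕ} {T T' : Tr} (h : RotN e T T') : IsBST T → ∀ (s : AS) (l r : ℕ),
    ok s l r → inv T s l r → ∃ s' : AS, ok s' l r ∧ inv T' s' l r ∧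
      (∀ Y : List ℕ, val s' l r Y = val s l r Y) ∧ cred s' ≤ cred s + 2 * e := by
  induction h with
  | refl T => intro _ s l r h1 h2; exact ⟨s, h1, h2, fun _ => rfl, by simp⟩
  | step e s0 T T' T'' h1 _ ih =>
    intro hb s l r hok hinv
    obtain ⟨a, b, hab⟩ := rot_lca h1 hb
    obtain ⟨s1, q1, q2, q3, q4⟩ := step_rot_aux h1 hb hab s l r hok hinv
    have hb' : IsBST T' := by unfold IsBST; rw [rot_keys h1]; exact hb
    obtain ⟨s2, r1, r2, r3, r4⟩ := ih hb' s1 l r q1 q2
    refine ⟨s2, r1, r2, fun Y => by rw [r3, q3], ?_⟩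
    have t1 := tch_le {a, b} hb s l r hok
    have t2 : (({a, b} : Finset ℕ).filter fun k => l ≤ k ∧ k < r ∧ lca l r T ≠ some k).card ≤ 2 :=
      le_trans (Finset.card_filter_le _ _) Finset.card_le_two
    omega

/-- The interleave bound. -/
theorem exec_val {T : Tr} {Y : List ℕ} {c : ℕ} (h : Exec T Y c) : IsBST T →
    (∀ x ∈ Y, x ∈ keys T) → ∀ (s : AS) (l r : ℕ), ok s l r → inv T s l r →
      val s l r Y ≤ 2 * c + cred s := by
  induction h with
  | nil T =>
    intro _ _ s l r _ _
    have : ∀ (s : AS) (l r : ℕ), val s l r [] = 0 := by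
      intro s
      induction s with
      | leaf => intro l r; rfl
      | node m b p A B ihA ihB => intro l r; simp [val, cnt, ihA, ihB]
    rw [this]; omega
  | cons T T' x Y e c h1 _ ih =>
    intro hb hY s l r hok hinv
    obtain ⟨s1, q1, q2, q3⟩ := step_search hb (hY x (by simp)) s l r hok hinv
    obtain ⟨s2, r1, r2, r3, r4⟩ := step_rotN h1 hb s1 l r q1 q2
    have hk := rotN_keys h1
    have := ih (by unfold IsBST; rw [hk]; exact hb) (fun y hy => by rw [hk]; exact hY y (by simp [hy]))
      s2 l r r1 r2
    have t1 := tch_le (path x T).toFinset hb s l r hok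
    have t2 : ((path x T).toFinset.filter fun k => l ≤ k ∧ k < r ∧ lca l r T ≠ some k).card ≤
        dep x T + 1 :=
      le_trans (Finset.card_filter_le _ _) (le_trans (List.toFinset_card_le _) (path_length x T))
    have := q3 Y
    rw [r3] at *
    omega

theorem exec_length {T : Tr} {Y : List ℕ} {c : ℕ} (h : Exec T Y c) : Y.length ≤ c := by
  induction h with
  | nil T => simp
  | cons T T' x Y e c _ _ ih => simp only [List.length_cons]; omega

theorem exec_append {T : Tr} {X : List ℕ} (Y : List ℕ) : ∀ {T : Tr} {c : ℕ},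
    Exec T (X ++ Y) c → ∃ (T' : Tr) (c1 c2 : ℕ), keys T' = keys T ∧ Exec T X c1 ∧ Exec T' Y c2 ∧
      c = c1 + c2 := by
  induction X with
  | nil => intro T c h; exact ⟨T, 0, c, rfl, Exec.nil T, h, by omega⟩
  | cons x X ih =>
    intro T c h
    rw [List.cons_append] at h
    cases h with
    | cons _ T1 _ _ e c' h1 h2 =>
      obtain ⟨T', c1, c2, k1, k2, k3, k4⟩ := ih h2
      refine ⟨T', 1 + e + dep x T + c1, c2, by rw [k1, rotN_keys h1],
        Exec.cons T T1 x X e c1 h1 k2, k3, by omega⟩

theorem exec_exists (Y : List ℕ) (T : Tr) : ∃ c, Exec T Y c := by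
  induction Y with
  | nil => exact ⟨0, Exec.nil T⟩
  | cons x Y ih =>
    obtain ⟨c, hc⟩ := ih
    exact ⟨_, Exec.cons T T x Y 0 c (RotN.refl T) hc⟩

theorem exec_windows {K : List ℕ} : ∀ (J : ℕ) (Y : Fin J → List ℕ) (h : Fin J → ℝ),
    (∀ (j : Fin J) (T : Tr) (c : ℕ), keys T = K → Exec T (Y j) c → h j ≤ c) →
    ∀ (T : Tr) (c : ℕ), keys T = K → Exec T (cat Y) c → ∑ j, h j ≤ c := by
  intro J
  induction J with
  | zero => intro Y h _ T c _ _; simp
  | succ J ih =>
    intro Y h hh T c hT hE
    have e : cat Y = Y 0 ++ cat (fun i : Fin J => Y i.succ) := by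
      simp [cat, List.ofFn_succ]
    rw [e] at hE
    obtain ⟨T', c1, c2, k1, k2, k3, k4⟩ := exec_append (T := T) _ hE
    have h0 := hh 0 T c1 hT k2
    have h1 := ih (fun i => Y i.succ) (fun i => h i.succ) (fun j T c => hh j.succ T c) T' c2
      (by rw [k1, hT]) k3
    rw [Fin.sum_univ_succ, k4]
    push_cast
    linarith

theorem optAny_ge {K Y : List ℕ} {v : ℝ} {T : Tr} (hT : keys T = K)
    (h : ∀ (T : Tr) (c : ℕ), keys T = K → Exec T Y c → v ≤ c) : v ≤ (optAny K Y : ℝ) := by
  have hne : {c : ℕ | ∃ T : Tr, keys T = K ∧ Exec T Y c}.Nonempty := by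
    obtain ⟨c, hc⟩ := exec_exists Y T
    exact ⟨c, T, hT, hc⟩
  obtain ⟨T', h1, h2⟩ := Nat.sInf_mem hne
  exact h T' _ h1 h2

end Pool.Agent.TH49.Spl
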