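import Pool.Agent.H581R2.SplayAccess
import Pool.Agent.TH49.Spl.Defs

set_option autoImplicit false

/-! The classical access lemma for splaying (real weights, logarithmic potential), and the cost of
splaying a request sequence cut into windows. -/

namespace Pool.Agent.TH49.Spl

open Pool.Agent.H581R2.Splay Tr

/-- total weight of a tree -/
noncomputable def wt (w : ℕ → ℝ) : Tr → ℝ
  | nil => 0
  | node a l r => w a + wt w l + wt w r

/-- the potential -/
noncomputable def pot (w : ℕ → ℝ) : Tr → ℝ
  | nil => 0
  | node a l r => Real.logb 2 (wt w (node a l r)) + pot w l + pot w r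

theorem wt_nonneg {w : ℕ → ℝ} (hw : ∀ a, 0 < w a) (t : Tr) : 0 ≤ wt w t := by
  induction t with
  | nil => simp [wt]
  | node a l r ihl ihr => simp only [wt]; have := hw a; linarith

theorem wt_pos {w : ℕ → ℝ} (hw : ∀ a, 0 < w a) (a : ℕ) (l r : Tr) : 0 < wt w (node a l r) := by
  simp only [wt]; have := hw a; have := wt_nonneg hw l; have := wt_nonneg hw r; linarith

/-- the logarithmic inequality behind the access lemma -/
theorem log_ineq {a b c : ℝ} (ha : 0 < a) (hb : 0 < b) (hc : a + b ≤ c) :
    Real.logb 2 a + Real.logb 2 b + 2 ≤ 2 * Real.logb 2 c := by
  have hcp : 0 < c := by linarith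
  have h1 : 4 * (a * b) ≤ c * c := by nlinarith [sq_nonneg (a - b)]
  have h2 : Real.logb 2 (4 * (a * b)) ≤ Real.logb 2 (c * c) :=
    Real.logb_le_logb_of_le (by norm_num) (by positivity) h1
  rw [Real.logb_mul (by norm_num) (by positivity), Real.logb_mul ha.ne' hb.ne',
    Real.logb_mul hcp.ne' hcp.ne'] at h2
  have h4 : Real.logb 2 4 = 2 := by
    have : (4 : ℝ) = 2 ^ (2 : ℝ) := by norm_num
    rw [this, Real.logb_rpow (by norm_num) (by norm_num)]
  rw [h4] at h2
  linarith

theorem logb_mono {a b : ℝ} (ha : 0 < a) (h : a ≤ b) : Real.logb 2 a ≤ Real.logb 2 b :=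
  Real.logb_le_logb_of_le (by norm_num) ha h

/-- the zig-zig step, in the four variables that matter -/
theorem zz {x' y' z' x y : ℝ} {lx ly lz lx' ly' lz' : ℝ} (hx : 0 < x) (hz' : 0 < z')
    (hxz : x + z' ≤ x') (hy' : 0 < y') (hy'x : y' ≤ x') (hxy : x ≤ y)
    (e1 : lx = Real.logb 2 x) (e2 : lz' = Real.logb 2 z') (e3 : lx' = Real.logb 2 x')
    (e4 : ly' = Real.logb 2 y') (e5 : ly = Real.logb 2 y) (e6 : lz = lx') :
    2 + (lx' + ly' + lz') ≤ (lx + ly + lz) + 3 * (lx' - lx) := by
  have h1 := log_ineq hx hz' hxz
  have h2 := logb_mono hy' hy'x
  have h3 := logb_mono hx hxy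
  subst e1 e2 e3 e4 e5 e6
  linarith

theorem pot_plug_congr {w : ℕ → ℝ} (fs : List Fr) (t t' : Tr) (h : wt w t = wt w t') :
    pot w (plug fs t) - pot w t = pot w (plug fs t') - pot w t' ∧
      wt w (plug fs t) = wt w (plug fs t') := by
  induction fs generalizing t t' with
  | nil => simp [plug, h]
  | cons g fs ih =>
    cases g with
    | inL a r =>
      have := ih (plug1 (Fr.inL a r) t) (plug1 (Fr.inL a r) t') (by simp only [plug1, wt, h])
      refine ⟨?_, this.2⟩
      have h1 := this.1
      simp only [plug]
      simp only [plug1, pot, wt, h] at h1 ⊢
      linarith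
    | inR a l =>
      have := ih (plug1 (Fr.inR a l) t) (plug1 (Fr.inR a l) t') (by simp only [plug1, wt, h])
      refine ⟨?_, this.2⟩
      have h1 := this.1
      simp only [plug]
      simp only [plug1, pot, wt, h] at h1 ⊢
      linarith

theorem climb_wpot {w : ℕ → ℝ} (hw : ∀ a, 0 < w a) (x : ℕ) : ∀ (fs : List Fr) (l r : Tr),
    keys (climb x fs l r) = keys (plug fs (node x l r)) ∧
    wt w (climb x fs l r) = wt w (plug fs (node x l r)) ∧
    (fs.length : ℝ) + pot w (climb x fs l r) ≤
      pot w (plug fs (node x l r)) +
        3 * (Real.logb 2 (wt w (plug fs (node x l r))) - Real.logb 2 (wt w (node x l r))) + 1 := by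
  intro fs
  induction hn : fs.length using Nat.strong_induction_on generalizing fs with
  | _ n ih =>
    intro l r
    match fs, hn with
    | [], hn =>
      subst hn
      simp [climb, plug]
    | [Fr.inL y c], hn =>
      subst hn
      have e : wt w (node x l (node y r c)) = wt w (node y (node x l r) c) := by
        simp only [wt]; ring
      refine ⟨by simp [climb, plug, plug1, keys], ?_, ?_⟩
      · simp only [climb, plug, plug1]; exact e
      simp only [climb, plug, plug1, List.length_singleton]
      have a1 := logb_mono (wt_pos hw x l r) (show wt w (node x l r) ≤ wt w (node y (node x l r) c) by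
        have := hw y; have := wt_nonneg hw c; simp only [wt]; linarith)
      have a2 := logb_mono (wt_pos hw y r c) (show wt w (node y r c) ≤ wt w (node x l (node y r c)) by
        have := hw x; have := wt_nonneg hw l; simp only [wt]; linarith)
      rw [e] at a2
      simp only [pot]
      rw [e]
      push_cast
      linarith
    | [Fr.inR y c], hn =>
      subst hn
      have e : wt w (node x (node y c l) r) = wt w (node y c (node x l r)) := by
        simp only [wt]; ring
      refine ⟨by simp [climb, plug, plug1, keys], ?_, ?_⟩
      · simp only [climb, plug, plug1]; exact e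
      simp only [climb, plug, plug1, List.length_singleton]
      have a1 := logb_mono (wt_pos hw x l r) (show wt w (node x l r) ≤ wt w (node y c (node x l r)) by
        have := hw y; have := wt_nonneg hw c; simp only [wt]; linarith)
      have a2 := logb_mono (wt_pos hw y c l) (show wt w (node y c l) ≤ wt w (node x (node y c l) r) by
        have := hw x; have := wt_nonneg hw r; simp only [wt]; linarith)
      rw [e] at a2
      simp only [pot]
      rw [e]
      push_cast
      linarith
    | Fr.inL y c :: Fr.inL z d :: fs, hn =>
      simp only [List.length_cons] at hn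
      have hp : plug (Fr.inL y c :: Fr.inL z d :: fs) (node x l r) =
          plug fs (node z (node y (node x l r) c) d) := rfl
      have hw2 : wt w (node x l (node y r (node z c d))) =
          wt w (node z (node y (node x l r) c) d) := by simp only [wt]; ring
      have hk : keys (node x l (node y r (node z c d))) =
          keys (node z (node y (node x l r) c) d) := by simp [keys]
      obtain ⟨i1, i2, i3⟩ := ih fs.length (by omega) fs rfl l (node y r (node z c d))
      obtain ⟨p1, p2⟩ := pot_plug_congr (w := w) fs _ _ hw2
      rw [hp]
      simp only [climb]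
      refine ⟨by rw [i1, keys_plug, keys_plug, hk], by rw [i2, p2], ?_⟩
      have st := zz (x := wt w (node x l r)) (y := wt w (node y (node x l r) c))
        (x' := wt w (node x l (node y r (node z c d)))) (y' := wt w (node y r (node z c d)))
        (z' := wt w (node z c d)) (wt_pos hw _ _ _) (wt_pos hw _ _ _)
        (by have := hw y; simp only [wt]; linarith) (wt_pos hw _ _ _)
        (by have := hw x; have := wt_nonneg hw l; simp only [wt]; linarith)
        (by have := hw y; have := wt_nonneg hw c; simp only [wt]; linarith) rfl rfl rfl rfl rfl rfl
      have q1 : pot w (node x l (node y r (node z c d))) =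
          Real.logb 2 (wt w (node x l (node y r (node z c d)))) + pot w l +
          (Real.logb 2 (wt w (node y r (node z c d))) + pot w r +
            (Real.logb 2 (wt w (node z c d)) + pot w c + pot w d)) := rfl
      have q2 : pot w (node z (node y (node x l r) c) d) =
          Real.logb 2 (wt w (node z (node y (node x l r) c) d)) +
          (Real.logb 2 (wt w (node y (node x l r) c)) +
            (Real.logb 2 (wt w (node x l r)) + pot w l + pot w r) + pot w c) + pot w d := rfl
      rw [p2] at i3
      rw [hw2] at i3 st q1
      rw [q1, q2] at p1
      rw [← hn]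
      push_cast
      linarith
    | Fr.inR y c :: Fr.inR z d :: fs, hn =>
      simp only [List.length_cons] at hn
      have hp : plug (Fr.inR y c :: Fr.inR z d :: fs) (node x l r) =
          plug fs (node z d (node y c (node x l r))) := rfl
      have hw2 : wt w (node x (node y (node z d c) l) r) =
          wt w (node z d (node y c (node x l r))) := by simp only [wt]; ring
      have hk : keys (node x (node y (node z d c) l) r) =
          keys (node z d (node y c (node x l r))) := by simp [keys]
      obtain ⟨i1, i2, i3⟩ := ih fs.length (by omega) fs rfl (node y (node z d c) l) r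
      obtain ⟨p1, p2⟩ := pot_plug_congr (w := w) fs _ _ hw2
      rw [hp]
      simp only [climb]
      refine ⟨by rw [i1, keys_plug, keys_plug, hk], by rw [i2, p2], ?_⟩
      have st := zz (x := wt w (node x l r)) (y := wt w (node y c (node x l r)))
        (x' := wt w (node x (node y (node z d c) l) r)) (y' := wt w (node y (node z d c) l))
        (z' := wt w (node z d c)) (wt_pos hw _ _ _) (wt_pos hw _ _ _)
        (by have := hw y; simp only [wt]; linarith) (wt_pos hw _ _ _)
        (by have := hw x; have := wt_nonneg hw r; simp only [wt]; linarith)
        (by have := hw y; have := wt_nonneg hw c; simp only [wt]; linarith) rfl rfl rfl rfl rfl rfl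
      have q1 : pot w (node x (node y (node z d c) l) r) =
          Real.logb 2 (wt w (node x (node y (node z d c) l) r)) +
          (Real.logb 2 (wt w (node y (node z d c) l)) +
            (Real.logb 2 (wt w (node z d c)) + pot w d + pot w c) + pot w l) + pot w r := rfl
      have q2 : pot w (node z d (node y c (node x l r))) =
          Real.logb 2 (wt w (node z d (node y c (node x l r)))) + pot w d +
          (Real.logb 2 (wt w (node y c (node x l r))) + pot w c +
            (Real.logb 2 (wt w (node x l r)) + pot w l + pot w r)) := rfl
      rw [p2] at i3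
      rw [hw2] at i3 st q1
      rw [q1, q2] at p1
      rw [← hn]
      push_cast
      linarith
    | Fr.inL y c :: Fr.inR z d :: fs, hn =>
      simp only [List.length_cons] at hn
      have hp : plug (Fr.inL y c :: Fr.inR z d :: fs) (node x l r) =
          plug fs (node z d (node y (node x l r) c)) := rfl
      have hw2 : wt w (node x (node z d l) (node y r c)) =
          wt w (node z d (node y (node x l r) c)) := by simp only [wt]; ring
      have hk : keys (node x (node z d l) (node y r c)) =
          keys (node z d (node y (node x l r) c)) := by simp [keys]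
      obtain ⟨i1, i2, i3⟩ := ih fs.length (by omega) fs rfl (node z d l) (node y r c)
      obtain ⟨p1, p2⟩ := pot_plug_congr (w := w) fs _ _ hw2
      rw [hp]
      simp only [climb]
      refine ⟨by rw [i1, keys_plug, keys_plug, hk], by rw [i2, p2], ?_⟩
      have st := log_ineq (wt_pos hw z d l) (wt_pos hw y r c)
        (c := wt w (node x (node z d l) (node y r c))) (by have := hw x; simp only [wt]; linarith)
      have m1 := logb_mono (wt_pos hw x l r) (show wt w (node x l r) ≤ wt w (node y (node x l r) c) by
        have := hw y; have := wt_nonneg hw c; simp only [wt]; linarith)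
      have m2 := logb_mono (wt_pos hw x l r)
        (show wt w (node x l r) ≤ wt w (node z d (node y (node x l r) c)) by
        have := hw y; have := hw z; have := wt_nonneg hw c; have := wt_nonneg hw d
        simp only [wt]; linarith)
      have q1 : pot w (node x (node z d l) (node y r c)) =
          Real.logb 2 (wt w (node x (node z d l) (node y r c))) +
          (Real.logb 2 (wt w (node z d l)) + pot w d + pot w l) +
          (Real.logb 2 (wt w (node y r c)) + pot w r + pot w c) := rfl
      have q2 : pot w (node z d (node y (node x l r) c)) =
          Real.logb 2 (wt w (node z d (node y (node x l r) c))) + pot w d +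
          (Real.logb 2 (wt w (node y (node x l r) c)) +
            (Real.logb 2 (wt w (node x l r)) + pot w l + pot w r) + pot w c) := rfl
      rw [p2] at i3
      rw [hw2] at i3 st q1
      rw [q1, q2] at p1
      rw [← hn]
      push_cast
      linarith
    | Fr.inR y c :: Fr.inL z d :: fs, hn =>
      simp only [List.length_cons] at hn
      have hp : plug (Fr.inR y c :: Fr.inL z d :: fs) (node x l r) =
          plug fs (node z (node y c (node x l r)) d) := rfl
      have hw2 : wt w (node x (node y c l) (node z r d)) =
          wt w (node z (node y c (node x l r)) d) := by simp only [wt]; ring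
      have hk : keys (node x (node y c l) (node z r d)) =
          keys (node z (node y c (node x l r)) d) := by simp [keys]
      obtain ⟨i1, i2, i3⟩ := ih fs.length (by omega) fs rfl (node y c l) (node z r d)
      obtain ⟨p1, p2⟩ := pot_plug_congr (w := w) fs _ _ hw2
      rw [hp]
      simp only [climb]
      refine ⟨by rw [i1, keys_plug, keys_plug, hk], by rw [i2, p2], ?_⟩
      have st := log_ineq (wt_pos hw y c l) (wt_pos hw z r d)
        (c := wt w (node x (node y c l) (node z r d))) (by have := hw x; simp only [wt]; linarith)
      have m1 := logb_mono (wt_pos hw x l r) (show wt w (node x l r) ≤ wt w (node y c (node x l r)) by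
        have := hw y; have := wt_nonneg hw c; simp only [wt]; linarith)
      have m2 := logb_mono (wt_pos hw x l r)
        (show wt w (node x l r) ≤ wt w (node z (node y c (node x l r)) d) by
        have := hw y; have := hw z; have := wt_nonneg hw c; have := wt_nonneg hw d
        simp only [wt]; linarith)
      have q1 : pot w (node x (node y c l) (node z r d)) =
          Real.logb 2 (wt w (node x (node y c l) (node z r d))) +
          (Real.logb 2 (wt w (node y c l)) + pot w c + pot w l) +
          (Real.logb 2 (wt w (node z r d)) + pot w r + pot w d) := rfl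
      have q2 : pot w (node z (node y c (node x l r)) d) =
          Real.logb 2 (wt w (node z (node y c (node x l r)) d)) +
          (Real.logb 2 (wt w (node y c (node x l r))) + pot w c +
            (Real.logb 2 (wt w (node x l r)) + pot w l + pot w r)) + pot w d := rfl
      rw [p2] at i3
      rw [hw2] at i3 st q1
      rw [q1, q2] at p1
      rw [← hn]
      push_cast
      linarith

/-- the access lemma with real weights -/
theorem waccess {w : ℕ → ℝ} (hw : ∀ a, 0 < w a) {x : ℕ} {t : Tr} (hb : IsBST t)
    (hx : x ∈ keys t) :
    keys (splay x t) = keys t ∧ wt w (splay x t) = wt w t ∧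
    (dep x t : ℝ) + pot w (splay x t) ≤
      pot w t + 3 * (Real.logb 2 (wt w t) - Real.logb 2 (w x)) + 1 := by
  obtain ⟨h1, h2⟩ := locate_spec x t [] hb hx
  have h1' : plug (locate x t []).1 (node x (locate x t []).2.1 (locate x t []).2.2) = t := h1
  have h2' : (locate x t []).1.length = dep x t := by simpa using h2
  obtain ⟨c1, c2, c3⟩ := climb_wpot hw x (locate x t []).1 (locate x t []).2.1
    (locate x t []).2.2
  rw [h1'] at c1 c2 c3
  rw [h2'] at c3
  refine ⟨c1, c2, ?_⟩
  have m := logb_mono (hw x)
    (show w x ≤ wt w (node x (locate x t []).2.1 (locate x t []).2.2) by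
      have := wt_nonneg hw (locate x t []).2.1; have := wt_nonneg hw (locate x t []).2.2
      simp only [wt]; linarith)
  unfold splay
  linarith

end Pool.Agent.TH49.Spl
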