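import Pool.Agent.TH49.Spl.Pot

set_option autoImplicit false

/-! The cost of splaying a request sequence cut into windows. -/

namespace Pool.Agent.TH49.Spl

open Pool.Agent.H581R2.Splay Tr

/-- the tree after splaying the requests -/
def runS : Tr → List ℕ → Tr
  | S, [] => S
  | S, x :: X => runS (splay x S) X

theorem costSplay_append (X Y : List ℕ) : ∀ S : Tr,
    costSplay S (X ++ Y) = costSplay S X + costSplay (runS S X) Y := by
  induction X with
  | nil => intro S; simp [costSplay, runS]
  | cons x X ih => intro S; simp only [List.cons_append, costSplay, runS, ih]; ring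

theorem runS_append (X Y : List ℕ) : ∀ S : Tr, runS S (X ++ Y) = runS (runS S X) Y := by
  induction X with
  | nil => intro S; simp [runS]
  | cons x X ih => intro S; simp only [List.cons_append, runS, ih]

theorem runS_keys (X : List ℕ) : ∀ S : Tr, IsBST S → (∀ x ∈ X, x ∈ keys S) →
    keys (runS S X) = keys S := by
  induction X with
  | nil => intro S _ _; rfl
  | cons x X ih =>
    intro S hb h
    obtain ⟨h1, -, -⟩ := waccess (w := fun _ => 1) (fun _ => one_pos) hb (h x (by simp))
    simp only [runS]
    rw [ih (splay x S) (by unfold IsBST; rw [h1]; exact hb) (fun y hy => by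
      rw [h1]; exact h y (by simp [hy])), h1]

/-- the potential without the term of the root -/
noncomputable def psi (w : ℕ → ℝ) : Tr → ℝ
  | nil => 0
  | node _ l r => pot w l + pot w r

theorem wt_eq (w : ℕ → ℝ) (t : Tr) : wt w t = ((keys t).map w).sum := by
  induction t with
  | nil => simp [wt, keys]
  | node a l r ihl ihr => simp only [wt, keys, ihl, ihr, List.map_append, List.map_cons,
      List.sum_append, List.sum_cons]; ring

theorem wt_mono {w w' : ℕ → ℝ} (t : Tr) (h : ∀ a ∈ keys t, w' a ≤ w a) : wt w' t ≤ wt w t := by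
  induction t with
  | nil => simp [wt]
  | node a l r ihl ihr =>
    have h1 := ihl (fun k hk => h k (by simp [keys, hk]))
    have h2 := ihr (fun k hk => h k (by simp [keys, hk]))
    have h3 := h a (by simp [keys])
    simp only [wt]; linarith

theorem pot_mono {w w' : ℕ → ℝ} (hw' : ∀ a, 0 < w' a) (t : Tr)
    (h : ∀ a ∈ keys t, w' a ≤ w a) : pot w' t ≤ pot w t := by
  induction t with
  | nil => simp [pot]
  | node a l r ihl ihr =>
    have h1 := ihl (fun k hk => h k (by simp [keys, hk]))
    have h2 := ihr (fun k hk => h k (by simp [keys, hk]))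
    have h3 := logb_mono (wt_pos hw' a l r) (wt_mono (node a l r) h)
    simp only [pot]; linarith

theorem psi_mono {w w' : ℕ → ℝ} (hw' : ∀ a, 0 < w' a) (t : Tr)
    (h : ∀ a ∈ keys t, w' a ≤ w a) : psi w' t ≤ psi w t := by
  cases t with
  | nil => simp [psi]
  | node a l r =>
    have h1 := pot_mono hw' l (fun k hk => h k (by simp [keys, hk]))
    have h2 := pot_mono hw' r (fun k hk => h k (by simp [keys, hk]))
    simp only [psi]; linarith

/-- raising the weight of the root key costs nothing -/
theorem psi_root {w w' : ℕ → ℝ} (hw' : ∀ a, 0 < w' a) (x : ℕ) (l r : Tr)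
    (hb : IsBST (node x l r)) (h : ∀ a, a ≠ x → w' a ≤ w a) :
    psi w' (node x l r) ≤ psi w (node x l r) := by
  have hb' := hb
  simp only [IsBST, keys] at hb'
  rw [List.pairwise_append, List.pairwise_cons] at hb'
  obtain ⟨-, ⟨har, -⟩, hlr⟩ := hb'
  have h1 := pot_mono hw' l (fun k hk => h k (by
    have := hlr k hk x (by simp); omega))
  have h2 := pot_mono hw' r (fun k hk => h k (by
    have := har k hk; omega))
  simp only [psi]; linarith

theorem pot_nonpos {w : ℕ → ℝ} (hw : ∀ a, 0 < w a) (t : Tr) (h : wt w t ≤ 1) : pot w t ≤ 0 := by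
  induction t with
  | nil => simp [pot]
  | node a l r ihl ihr =>
    have ha := hw a
    have hl := wt_nonneg hw l
    have hr := wt_nonneg hw r
    have h0 := h
    simp only [wt] at h
    have h1 := ihl (by linarith)
    have h2 := ihr (by linarith)
    have h3 : Real.logb 2 (wt w (node a l r)) ≤ 0 :=
      Real.logb_nonpos (by norm_num) (wt_pos hw a l r).le h0
    simp only [pot]; linarith

theorem pot_ge {w : ℕ → ℝ} {β : ℝ} (hβ : 0 < β) (hw : ∀ a, β ≤ w a) (t : Tr) :
    ((keys t).length : ℝ) * Real.logb 2 β ≤ pot w t := by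
  induction t with
  | nil => simp [pot, keys]
  | node a l r ihl ihr =>
    have h3 : Real.logb 2 β ≤ Real.logb 2 (wt w (node a l r)) := by
      refine logb_mono hβ ?_
      have := hw a
      have := wt_nonneg (w := w) (fun a => lt_of_lt_of_le hβ (hw a)) l
      have := wt_nonneg (w := w) (fun a => lt_of_lt_of_le hβ (hw a)) r
      simp only [wt]; linarith
    simp only [pot, keys, List.length_append, List.length_cons]
    push_cast
    nlinarith

/-- Kraft's inequality for binary search trees -/
theorem kraft (O : Tr) (hb : IsBST O) :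
    ((keys O).map fun k => (1 / 4 : ℝ) ^ (dep k O + 1)).sum ≤ 1 / 2 := by
  induction O with
  | nil => simp [keys]
  | node a l r ihl ihr =>
    simp only [IsBST, keys] at hb
    rw [List.pairwise_append, List.pairwise_cons] at hb
    obtain ⟨hl, ⟨har, hr⟩, hlr⟩ := hb
    have e1 : ((keys l).map fun k => (1 / 4 : ℝ) ^ (dep k (node a l r) + 1)).sum =
        1 / 4 * ((keys l).map fun k => (1 / 4 : ℝ) ^ (dep k l + 1)).sum := by
      rw [← List.sum_map_mul_left]
      congr 1
      refine List.map_congr_left fun k hk => ?_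
      have : k < a := hlr k hk a (by simp)
      have hd : dep k (node a l r) = dep k l + 1 := by
        simp only [dep]; rw [if_neg (by omega), if_pos this]
      rw [hd]; ring
    have e2 : ((keys r).map fun k => (1 / 4 : ℝ) ^ (dep k (node a l r) + 1)).sum =
        1 / 4 * ((keys r).map fun k => (1 / 4 : ℝ) ^ (dep k r + 1)).sum := by
      rw [← List.sum_map_mul_left]
      congr 1
      refine List.map_congr_left fun k hk => ?_
      have : a < k := har k hk
      have hd : dep k (node a l r) = dep k r + 1 := by
        simp only [dep]; rw [if_neg (by omega), if_neg (by omega)]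
      rw [hd]; ring
    have e3 : dep a (node a l r) = 0 := by simp [dep]
    have h1 := ihl hl
    have h2 := ihr hr
    simp only [keys, List.map_append, List.map_cons, List.sum_append, List.sum_cons]
    rw [e1, e2, e3]
    norm_num
    linarith

/-- the weights: a base weight, and more for the keys of `A` that are near the root of `O` -/
noncomputable def wA (n : ℕ) (O : Tr) (A : Finset ℕ) (a : ℕ) : ℝ :=
  1 / (2 * n) + if a ∈ A then (1 / 4 : ℝ) ^ (dep a O + 1) else 0

theorem wA_base {n : ℕ} (hn : 1 ≤ n) (O : Tr) (A : Finset ℕ) (a : ℕ) :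
    (1 : ℝ) / (2 * n) ≤ wA n O A a := by
  unfold wA
  split_ifs
  · have : (0 : ℝ) ≤ (1 / 4) ^ (dep a O + 1) := by positivity
    linarith
  · linarith

theorem base_pos {n : ℕ} (hn : 1 ≤ n) : (0 : ℝ) < 1 / (2 * n) := by
  have : (0 : ℝ) < n := by exact_mod_cast hn
  positivity

theorem wA_pos {n : ℕ} (hn : 1 ≤ n) (O : Tr) (A : Finset ℕ) (a : ℕ) : 0 < wA n O A a :=
  lt_of_lt_of_le (base_pos hn) (wA_base hn O A a)

theorem wA_total {n : ℕ} (hn : 1 ≤ n) {O S : Tr} (hO : IsBST O) (hS : IsBST S)
    (hlen : (keys S).length = n) {A : Finset ℕ} (hA : ∀ a ∈ A, a ∈ keys O) :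
    wt (wA n O A) S ≤ 1 := by
  have nodS : (keys S).Nodup := List.Pairwise.imp (fun {a b} h => by omega) hS
  have nodO : (keys O).Nodup := List.Pairwise.imp (fun {a b} h => by omega) hO
  rw [wt_eq]
  have e : ((keys S).map (wA n O A)).sum = ((keys S).map fun _ => (1 : ℝ) / (2 * n)).sum +
      ((keys S).map fun a => if a ∈ A then (1 / 4 : ℝ) ^ (dep a O + 1) else 0).sum := by
    rw [← List.sum_map_add]; rfl
  rw [e]
  have e1 : ((keys S).map fun _ => (1 : ℝ) / (2 * n)).sum = 1 / 2 := by
    rw [List.map_const', List.sum_replicate, hlen, nsmul_eq_mul]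
    have : (n : ℝ) ≠ 0 := by positivity
    field_simp
  have e2 : ((keys S).map fun a => if a ∈ A then (1 / 4 : ℝ) ^ (dep a O + 1) else 0).sum ≤ 1 / 2 := by
    refine le_trans ?_ (kraft O hO)
    rw [← List.sum_toFinset _ nodS, ← List.sum_toFinset _ nodO, ← Finset.sum_filter]
    refine Finset.sum_le_sum_of_subset_of_nonneg ?_ (fun _ _ _ => by positivity)
    intro a ha
    rw [Finset.mem_filter] at ha
    rw [List.mem_toFinset]
    exact hA a ha.2
  linarith

theorem logb_quarter (d : ℕ) : Real.logb 2 ((1 / 4 : ℝ) ^ (d + 1)) = -(2 * (d + 1)) := by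
  have : (1 / 4 : ℝ) ^ (d + 1) = (2 : ℝ) ^ (-(2 * (d + 1)) : ℝ) := by
    rw [Real.rpow_neg (by norm_num), Real.rpow_mul (by norm_num)]
    have h1 : (2 : ℝ) ^ (2 : ℝ) = 4 := by norm_num
    have h2 : ((d : ℝ) + 1) = ((d + 1 : ℕ) : ℝ) := by push_cast; ring
    rw [h1, h2, Real.rpow_natCast, one_div, inv_pow]
  rw [this, Real.logb_rpow (by norm_num) (by norm_num)]

/-- one window -/
theorem window {n : ℕ} (hn : 1 ≤ n) {O : Tr} (hO : IsBST O) (B : List ℕ) :
    ∀ (S : Tr) (A : Finset ℕ), IsBST S → (keys S).length = n → (∀ x ∈ B, x ∈ keys S) →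
      (∀ x ∈ B, x ∈ keys O) → (∀ a ∈ A, a ∈ keys O) →
      (costSplay S B : ℝ) + psi (wA n O ∅) (runS S B) ≤
        psi (wA n O A) S + (B.map fun x => (8 + 6 * dep x O : ℝ)).sum +
          3 * (B.toFinset \ A).card * Real.logb 2 (2 * n) := by
  induction B with
  | nil =>
    intro S A _ _ _ _ _
    simp only [costSplay, runS, List.map_nil, List.sum_nil, List.toFinset_nil, Finset.empty_sdiff,
      Finset.card_empty]
    have := psi_mono (w := wA n O A) (w' := wA n O ∅) (wA_pos hn O ∅) S (fun a _ => by
      have := wA_base hn O A a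
      unfold wA at this ⊢; simpa using this)
    push_cast
    linarith
  | cons x B ih =>
    intro S A hb hlen hBS hBO hA
    have hw := wA_pos hn O A
    obtain ⟨k1, k2, k3⟩ := waccess hw hb (hBS x (by simp))
    have hb' : IsBST (splay x S) := by unfold IsBST; rw [k1]; exact hb
    obtain ⟨l, r, hlr⟩ := splay_root x S
    have hS : ∃ a l0 r0, S = node a l0 r0 := by
      cases hSc : S with
      | nil => have := hBS x (by simp); rw [hSc] at this; simp [keys] at this
      | node a l0 r0 => exact ⟨a, l0, r0, rfl⟩
    obtain ⟨a, l0, r0, hS⟩ := hS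
    have tot := wA_total hn hO hb hlen hA
    have hW : Real.logb 2 (wt (wA n O A) S) ≤ 0 :=
      Real.logb_nonpos (by norm_num) (wt_nonneg hw S) tot
    have p1 : pot (wA n O A) S = Real.logb 2 (wt (wA n O A) S) + psi (wA n O A) S := by
      rw [hS]; simp only [pot, psi]; ring
    have p2 : pot (wA n O A) (splay x S) =
        Real.logb 2 (wt (wA n O A) S) + psi (wA n O A) (splay x S) := by
      rw [← k2, hlr]; simp only [pot, psi]; ring
    have hstep : (1 + dep x S : ℝ) + psi (wA n O A) (splay x S) ≤
        psi (wA n O A) S + 2 - 3 * Real.logb 2 (wA n O A x) := by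
      rw [p1, p2] at k3; linarith
    have hA' : ∀ a ∈ insert x A, a ∈ keys O := by
      intro a ha
      rw [Finset.mem_insert] at ha
      rcases ha with rfl | ha
      · exact hBO _ (by simp)
      · exact hA a ha
    have hi := ih (splay x S) (insert x A) hb' (by rw [k1]; exact hlen)
      (fun y hy => by rw [k1]; exact hBS y (by simp [hy])) (fun y hy => hBO y (by simp [hy])) hA'
    have hmono : psi (wA n O (insert x A)) (splay x S) ≤ psi (wA n O A) (splay x S) := by
      rw [hlr]
      refine psi_root (wA_pos hn O _) x l r (by rw [← hlr]; exact hb') (fun a ha => ?_)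
      unfold wA
      simp [Finset.mem_insert, ha]
    have hL : (0 : ℝ) ≤ Real.logb 2 (2 * n) := by
      refine Real.logb_nonneg (by norm_num) ?_
      have : (1 : ℝ) ≤ n := by exact_mod_cast hn
      linarith
    simp only [costSplay, runS, List.map_cons, List.sum_cons, List.toFinset_cons]
    push_cast
    by_cases hxA : x ∈ A
    · have e1 : insert x A = A := Finset.insert_eq_of_mem hxA
      rw [e1] at hi hmono
      have e2 : (insert x B.toFinset) \ A = B.toFinset \ A :=
        Finset.insert_sdiff_of_mem _ hxA
      rw [e2]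
      have hlow : -(2 * ((dep x O : ℝ) + 1)) ≤ Real.logb 2 (wA n O A x) := by
        rw [← logb_quarter]
        refine logb_mono (by positivity) ?_
        unfold wA
        rw [if_pos hxA]
        have := base_pos hn
        linarith
      linarith
    · have e2 : ((insert x B.toFinset) \ A).card = (B.toFinset \ insert x A).card + 1 := by
        rw [Finset.insert_sdiff_of_notMem _ hxA]
        have : insert x (B.toFinset \ A) = insert x (B.toFinset \ insert x A) := by
          ext y
          simp only [Finset.mem_insert, Finset.mem_sdiff]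
          tauto
        rw [this, Finset.card_insert_of_notMem (by simp)]
      rw [e2]
      have hlow : -Real.logb 2 (2 * n) ≤ Real.logb 2 (wA n O A x) := by
        have h1 : Real.logb 2 (1 / (2 * n : ℝ)) ≤ Real.logb 2 (wA n O A x) :=
          logb_mono (base_pos hn) (wA_base hn O A x)
        rw [one_div, Real.logb_inv] at h1
        exact h1
      have hd : (0 : ℝ) ≤ dep x O := by positivity
      push_cast
      linarith

theorem psi_empty (n : ℕ) (O O' S : Tr) : psi (wA n O ∅) S = psi (wA n O' ∅) S := by
  have : wA n O ∅ = wA n O' ∅ := by funext a; simp [wA]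
  rw [this]

/-- all windows -/
theorem windows {n : ℕ} (hn : 1 ≤ n) (g : List ℕ → ℝ) (Bs : List (List ℕ)) :
    ∀ (S : Tr), IsBST S → (keys S).length = n → (∀ B ∈ Bs, ∀ x ∈ B, x ∈ keys S) →
      (∀ B ∈ Bs, ∃ O : Tr, IsBST O ∧ (∀ x ∈ B, x ∈ keys O) ∧
        (B.map fun x => (8 + 6 * dep x O : ℝ)).sum +
          3 * B.toFinset.card * Real.logb 2 (2 * n) ≤ g B) →
      (costSplay S Bs.flatten : ℝ) + psi (wA n nil ∅) (runS S Bs.flatten) ≤
        psi (wA n nil ∅) S + (Bs.map g).sum := by
  induction Bs with
  | nil => intro S _ _ _ _; simp [costSplay, runS]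
  | cons B Bs ih =>
    intro S hb hlen hBS hO
    obtain ⟨O, hO1, hO2, hO3⟩ := hO B (by simp)
    have hB := hBS B (by simp)
    have h1 := window hn hO1 B S ∅ hb hlen hB hO2 (by simp)
    rw [Finset.sdiff_empty] at h1
    have hk := runS_keys B S hb hB
    have h2 := ih (runS S B) (by unfold IsBST; rw [hk]; exact hb) (by rw [hk]; exact hlen)
      (fun B' hB' x hx => by rw [hk]; exact hBS B' (by simp [hB']) x hx)
      (fun B' hB' => hO B' (by simp [hB']))
    rw [List.flatten_cons, costSplay_append, runS_append]
    simp only [List.map_cons, List.sum_cons]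
    push_cast
    rw [psi_empty n O nil, psi_empty n O nil] at h1
    linarith

/-- The cost of splaying over windows. -/
theorem splay_windows {n : ℕ} (hn : 1 ≤ n) (g : List ℕ → ℝ) (Bs : List (List ℕ)) (S : Tr)
    (hb : IsBST S) (hlen : (keys S).length = n) (hBS : ∀ B ∈ Bs, ∀ x ∈ B, x ∈ keys S)
    (hO : ∀ B ∈ Bs, ∃ O : Tr, IsBST O ∧ (∀ x ∈ B, x ∈ keys O) ∧
        (B.map fun x => (8 + 6 * dep x O : ℝ)).sum +
          3 * B.toFinset.card * Real.logb 2 (2 * n) ≤ g B) :
    (costSplay S Bs.flatten : ℝ) ≤ (Bs.map g).sum + n * Real.logb 2 (2 * n) := by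
  have h := windows hn g Bs S hb hlen hBS hO
  have hk := runS_keys Bs.flatten S hb (by
    intro x hx
    rw [List.mem_flatten] at hx
    obtain ⟨B, h1, h2⟩ := hx
    exact hBS B h1 x h2)
  have htot := wA_total (A := ∅) hn (O := nil) (by simp [IsBST, keys]) hb hlen (by simp)
  have h1 : psi (wA n nil ∅) S ≤ 0 := by
    cases S with
    | nil => simp [psi]
    | node a l r =>
      have hw := wA_pos hn nil ∅
      have q1 := wt_nonneg hw l
      have q2 := wt_nonneg hw r
      have q3 := hw a
      simp only [wt] at htot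
      have := pot_nonpos hw l (by linarith)
      have := pot_nonpos hw r (by linarith)
      simp only [psi]; linarith
  have h2 : -((n : ℝ) * Real.logb 2 (2 * n)) ≤ psi (wA n nil ∅) (runS S Bs.flatten) := by
    have hL : (0 : ℝ) ≤ Real.logb 2 (2 * n) := by
      refine Real.logb_nonneg (by norm_num) ?_
      have : (1 : ℝ) ≤ n := by exact_mod_cast hn
      linarith
    have hβ : Real.logb 2 (1 / (2 * n : ℝ)) = -Real.logb 2 (2 * n) := by
      rw [one_div, Real.logb_inv]
    cases hS : runS S Bs.flatten with
    | nil =>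
      have : (0 : ℝ) ≤ (n : ℝ) * Real.logb 2 (2 * n) := by positivity
      simp only [psi]; linarith
    | node a l r =>
      have q1 := pot_ge (base_pos hn) (wA_base hn nil ∅) l
      have q2 := pot_ge (base_pos hn) (wA_base hn nil ∅) r
      rw [hβ] at q1 q2
      rw [hS] at hk
      have hlen' : (keys l).length + (keys r).length + 1 = n := by
        rw [← hlen, ← hk]; simp only [keys, List.length_append, List.length_cons]; omega
      have hlen'' : ((keys l).length : ℝ) + (keys r).length + 1 = n := by exact_mod_cast hlen'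
      simp only [psi]
      nlinarith
  linarith

end Pool.Agent.TH49.Spl
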